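import Pool.Agent.U131.MW.J

open MeasureTheory Set Filter
open scoped ENNReal Topology

namespace U131.MW

/-- the exponent cannot exceed `s/k - 1` -/
theorem lower_exp {k s : ℕ} (hk : 1 ≤ k) (α : Fin s → ℝ) (hα : ∀ i, 0 < α i) {τ : ℝ}
    (hτ : 0 ≤ τ) (hs : (s : ℝ) / k - 1 < τ) :
    ¬ ∀ᶠ M : ℝ in atTop, ∃ x : Fin s → ℕ, |∑ i, α i * (x i : ℝ) ^ k - M| < M ^ (-τ) := by
  intro h
  obtain ⟨M0, hM0⟩ := eventually_atTop.1 h
  have hk0 : (0:ℝ) < k := by exact_mod_cast hk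
  set c : ℝ := ∑ i, 3 / α i + 1 with hc
  have hc1 : 1 ≤ c := by
    have : 0 ≤ ∑ i, 3 / α i := Finset.sum_nonneg fun i _ => by
      have := hα i
      positivity
    linarith
  have hci : ∀ i, 3 / α i ≤ c := by
    intro i
    have h1 : 3 / α i ≤ ∑ i, 3 / α i :=
      Finset.single_le_sum (f := fun i => 3 / α i) (fun j _ => by
        have := hα j
        positivity) (Finset.mem_univ i)
    linarith
  have hc0 : 0 < c := by linarith
  have hlim : Tendsto (fun N : ℝ => N ^ (1 + τ - s / k)) atTop atTop :=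
    tendsto_rpow_atTop (by linarith)
  obtain ⟨N, hN1, hN2, hN3⟩ := ((hlim.eventually_gt_atTop (2 * (2 ^ s * c ^ ((s : ℝ) / k)))).and
    ((eventually_ge_atTop M0).and (eventually_ge_atTop (1:ℝ)))).exists
  have hN0 : 0 < N := by linarith
  set X : ℝ := (c * N) ^ (1 / (k : ℝ)) with hX
  have hcN : 1 ≤ c * N := by nlinarith
  have hX1 : 1 ≤ X := Real.one_le_rpow hcN (by positivity)
  set r : ℝ := N ^ (-τ) with hr
  have hr0 : 0 < r := by positivity
  have hr1 : r ≤ 1 := Real.rpow_le_one_of_one_le_of_nonpos hN3 (by linarith)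
  set T : Finset (Fin s → ℕ) := Fintype.piFinset fun _ => Finset.range (⌊X⌋₊ + 1) with hT
  have hcov : Icc N (2 * N) ⊆ ⋃ x ∈ T, Ioo (∑ i, α i * (x i : ℝ) ^ k - r)
      (∑ i, α i * (x i : ℝ) ^ k + r) := by
    intro M hM
    obtain ⟨x, hx⟩ := hM0 M (hN2.trans hM.1)
    have hMr : M ^ (-τ) ≤ r := Real.rpow_le_rpow_of_nonpos hN0 hM.1 (by linarith)
    rw [abs_lt] at hx
    have hsum : ∑ i, α i * (x i : ℝ) ^ k ≤ 3 * N := by
      linarith [hx.2, hM.2]
    rw [mem_iUnion₂]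
    refine ⟨x, ?_, by linarith [hx.2], by linarith [hx.1]⟩
    rw [hT, Fintype.mem_piFinset]
    intro i
    rw [Finset.mem_range, Nat.lt_succ_iff]
    apply Nat.le_floor
    have h3 : α i * (x i : ℝ) ^ k ≤ ∑ i, α i * (x i : ℝ) ^ k :=
      Finset.single_le_sum (f := fun i => α i * (x i : ℝ) ^ k)
        (fun j _ => mul_nonneg (hα j).le (by positivity)) (Finset.mem_univ i)
    have h4 : (x i : ℝ) ^ k ≤ c * N := by
      have h5 : (x i : ℝ) ^ k ≤ 3 / α i * N := by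
        rw [div_mul_eq_mul_div, le_div_iff₀ (hα i)]
        linarith
      exact h5.trans (mul_le_mul_of_nonneg_right (hci i) hN0.le)
    have h6 : (x i : ℝ) = ((x i : ℝ) ^ k) ^ (1 / (k : ℝ)) := by
      rw [← Real.rpow_natCast, ← Real.rpow_mul (by positivity), mul_one_div, div_self hk0.ne',
        Real.rpow_one]
    rw [h6]
    exact Real.rpow_le_rpow (by positivity) h4 (by positivity)
  have hvol := (measure_mono (μ := volume) hcov).trans (measure_biUnion_finset_le T _)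
  have h7 : ∀ x ∈ T, volume (Ioo (∑ i, α i * (x i : ℝ) ^ k - r)
      (∑ i, α i * (x i : ℝ) ^ k + r)) = ENNReal.ofReal (2 * r) := by
    intro x _
    rw [Real.volume_Ioo]
    congr 1
    ring
  rw [Finset.sum_congr rfl h7, Finset.sum_const, Real.volume_Icc, nsmul_eq_mul,
    ← ENNReal.ofReal_natCast, ← ENNReal.ofReal_mul (by positivity),
    ENNReal.ofReal_le_ofReal_iff (by positivity)] at hvol
  have hcard : (T.card : ℝ) ≤ 2 ^ s * (c ^ ((s : ℝ) / k) * N ^ ((s : ℝ) / k)) := by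
    have h8 : (T.card : ℝ) = ((⌊X⌋₊ : ℝ) + 1) ^ s := by
      rw [hT, Fintype.card_piFinset]
      simp
    rw [h8]
    have h9 : (⌊X⌋₊ : ℝ) + 1 ≤ 2 * X := by
      have := Nat.floor_le (show 0 ≤ X by linarith)
      linarith
    refine (pow_le_pow_left₀ (by positivity) h9 s).trans ?_
    rw [mul_pow]
    refine mul_le_mul_of_nonneg_left ?_ (by positivity)
    rw [hX, ← Real.rpow_natCast, ← Real.rpow_mul (by positivity),
      ← Real.mul_rpow hc0.le hN0.le]
    apply le_of_eq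
    congr 1
    ring
  have h10 : N ≤ 2 ^ s * (c ^ ((s : ℝ) / k) * N ^ ((s : ℝ) / k)) * (2 * N ^ (-τ)) := by
    have h11 := mul_le_mul_of_nonneg_right hcard (show 0 ≤ 2 * r by positivity)
    linarith
  have h12 : N ^ (1 + τ - s / k) * (N ^ ((s : ℝ) / k) * N ^ (-τ)) = N := by
    rw [← Real.rpow_add hN0, ← Real.rpow_add hN0]
    have : 1 + τ - (s : ℝ) / k + ((s : ℝ) / k + -τ) = 1 := by ring
    rw [this, Real.rpow_one]
  have h13 : 0 < N ^ ((s : ℝ) / k) * N ^ (-τ) := by positivity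
  have h14 : 2 * (2 ^ s * c ^ ((s : ℝ) / k)) * (N ^ ((s : ℝ) / k) * N ^ (-τ)) <
      N ^ (1 + τ - s / k) * (N ^ ((s : ℝ) / k) * N ^ (-τ)) := mul_lt_mul_of_pos_right hN1 h13
  rw [h12] at h14
  have h15 : 2 ^ s * (c ^ ((s : ℝ) / k) * N ^ ((s : ℝ) / k)) * (2 * N ^ (-τ)) =
      2 * (2 ^ s * c ^ ((s : ℝ) / k)) * (N ^ ((s : ℝ) / k) * N ^ (-τ)) := by ring
  linarith

/-- positive `k`-th powers have small gaps -/
lemma gap_powers' {k : ℕ} (hk : 1 ≤ k) : GapSet k {n | ∃ x : ℕ, 1 ≤ x ∧ n = x ^ k} := by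
  obtain ⟨C, hC⟩ := gap_powers hk
  refine ⟨C, fun y hy => ?_⟩
  obtain ⟨a, ⟨x, hx⟩, h1, h2⟩ := hC y hy
  refine ⟨a, ⟨x, ?_, hx⟩, h1, h2⟩
  rcases Nat.eq_zero_or_pos x with h | h
  · subst h
    rw [zero_pow (by omega)] at hx
    subst hx
    norm_num at h1
    linarith
  · exact h

/-- every large integer is an integer part, with positive integers -/
theorem metric_floor' {k : ℕ} (hk : 1 ≤ k) :
    ∀ᵐ α : Fin (k + Nat.log 2 k + 2) → ℝ, (∀ i, 0 < α i) → ∀ᶠ n : ℕ in atTop,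
      ∃ x : Fin (k + Nat.log 2 k + 2) → ℕ, (∀ i, 1 ≤ x i) ∧
        ⌊∑ i, α i * (x i : ℝ) ^ k⌋ = (n : ℤ) := by
  set t := Nat.log 2 k + 1 with ht
  have hs : k + Nat.log 2 k + 2 = k + 1 + t := by omega
  rw [hs]
  have hk0 : (0:ℝ) < k := by exact_mod_cast hk
  have hlt : (k : ℝ) < 2 ^ t := by
    have := Nat.lt_pow_succ_log_self (b := 2) (by norm_num) k
    exact_mod_cast this
  -- choose `τ`
  set gap : ℝ := 2 ^ t * (1 / (k : ℝ)) - 1 with hgap
  have hgap0 : 0 < gap := by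
    rw [hgap, mul_one_div, sub_pos, one_lt_div hk0]
    exact hlt
  have h2t : (0:ℝ) < 2 ^ t := by positivity
  set τ : ℝ := gap / (2 * (1 + 2 ^ t)) with hτ
  have hτ0 : 0 < τ := by positivity
  have ht' : 1 + τ < 2 ^ t * ((k + 1) / (k : ℝ) - 1 - τ) := by
    have h1 : τ * (2 * (1 + 2 ^ t)) = gap := by
      rw [hτ]
      field_simp
    have h2 : ((k : ℝ) + 1) / k - 1 = 1 / k := by
      field_simp
      ring
    rw [h2]
    nlinarith
  have hlt' : k < 2 ^ t := by exact_mod_cast hlt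
  have hmain := metric hk le_rfl hlt' hτ0.le ht' (fun _ => {n | ∃ x : ℕ, 1 ≤ x ∧ n = x ^ k})
    (fun _ _ => gap_powers' hk) (fun _ _ => (gap_powers' hk).ratio)
  filter_upwards [hmain] with α hα hpos
  have h1 := hα hpos
  have hcast : Tendsto (fun n : ℕ => (n : ℝ) + 1 / 2) atTop atTop :=
    tendsto_atTop_add_const_right _ _ tendsto_natCast_atTop_atTop
  have h2 := hcast.eventually h1
  have h3 : Tendsto (fun M : ℝ => M ^ (-τ)) atTop (𝓝 0) := tendsto_rpow_neg_atTop hτ0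
  have h4 := hcast.eventually (h3.eventually_lt_const (show (0:ℝ) < 1 / 2 by norm_num))
  filter_upwards [h2, h4] with n hn hn2
  obtain ⟨a, ha, h5⟩ := hn
  choose x hx1 hx using ha
  refine ⟨x, hx1, ?_⟩
  have h6 : ∑ i, α i * (x i : ℝ) ^ k = ∑ i, α i * (a i : ℝ) := by
    refine Finset.sum_congr rfl fun i _ => ?_
    rw [hx i]
    push_cast
    rfl
  rw [h6, Int.floor_eq_iff]
  rw [abs_lt] at h5
  push_cast
  constructor <;> linarith [h5.1, h5.2]

/-- the set of all coefficient vectors with entries `> 2` is not null -/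
lemma exists_big {s : ℕ} {P : (Fin s → ℝ) → Prop} (h : ∀ᵐ α : Fin s → ℝ, P α) :
    ∃ α : Fin s → ℝ, (∀ i, 2 ≤ α i) ∧ P α := by
  by_contra hcon
  push Not at hcon
  have hopen : IsOpen (univ.pi fun _ : Fin s => Ioi (2:ℝ)) :=
    isOpen_set_pi finite_univ fun _ _ => isOpen_Ioi
  have hne : (univ.pi fun _ : Fin s => Ioi (2:ℝ)).Nonempty :=
    ⟨fun _ => 3, fun i _ => by norm_num⟩
  have hpos := hopen.measure_pos volume hne
  have hsub : (univ.pi fun _ : Fin s => Ioi (2:ℝ)) ⊆ {α | ¬ P α} :=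
    fun α hα => hcon α fun i => (mem_Ioi.1 (hα i (mem_univ i))).le
  have : volume (univ.pi fun _ : Fin s => Ioi (2:ℝ)) = 0 :=
    measure_mono_null hsub (ae_iff.1 h)
  exact hpos.ne' this

end U131.MW
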