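import Mathlib

open MeasureTheory Set Filter
open scoped ENNReal Topology

namespace U131.MW

/-- bounded, measurable, integrable real functions -/
structure Nice (F : ℝ → ℝ) : Prop where
  meas : Measurable F
  bdd : ∃ B : ℝ, ∀ x, |F x| ≤ B
  int : Integrable F

/-- all interval integrals are at most `D` in absolute value -/
def Disc (F : ℝ → ℝ) (D : ℝ) : Prop := ∀ x y : ℝ, |∫ z in x..y, F z| ≤ D

/-- energy -/
noncomputable def en (F : ℝ → ℝ) : ℝ := ∫ z, F z ^ 2

/-- `L¹` norm -/
noncomputable def l1 (F : ℝ → ℝ) : ℝ := ∫ z, |F z|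

/-- autocorrelation -/
noncomputable def cor (F : ℝ → ℝ) (u : ℝ) : ℝ := ∫ z, F z * F (z + u)

/-- transfer -/
noncomputable def tr (b : ℕ → ℝ) (L : ℕ) (a : ℝ) (F : ℝ → ℝ) : ℝ → ℝ :=
  fun M => ∑ l ∈ Finset.range L, F (M - a * b l)

lemma l1_nonneg (F : ℝ → ℝ) : 0 ≤ l1 F := integral_nonneg fun _ => abs_nonneg _

lemma en_nonneg (F : ℝ → ℝ) : 0 ≤ en F := integral_nonneg fun _ => sq_nonneg _

lemma Disc.nonneg {F : ℝ → ℝ} {D : ℝ} (h : Disc F D) : 0 ≤ D := (abs_nonneg _).trans (h 0 0)

lemma Nice.shift {F : ℝ → ℝ} (h : Nice F) (c : ℝ) : Nice fun M => F (M - c) :=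
  ⟨h.meas.comp (measurable_id.sub_const c), by
    obtain ⟨B, hB⟩ := h.bdd
    exact ⟨B, fun x => hB _⟩, h.int.comp_sub_right c⟩

lemma Nice.tr {F : ℝ → ℝ} (h : Nice F) (b : ℕ → ℝ) (L : ℕ) (a : ℝ) : Nice (tr b L a F) := by
  obtain ⟨B, hB⟩ := h.bdd
  refine ⟨?_, ⟨L * B, fun x => ?_⟩, ?_⟩
  · exact Finset.measurable_sum _ fun l _ => (h.shift (a * b l)).meas
  · unfold MW.tr
    refine (Finset.abs_sum_le_sum_abs _ _).trans ?_
    refine (Finset.sum_le_sum fun l _ => hB _).trans ?_
    simp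
  · exact integrable_finset_sum _ fun l _ => (h.shift (a * b l)).int

lemma Nice.sq_int {F : ℝ → ℝ} (h : Nice F) (G : ℝ → ℝ) (hG : Nice G) :
    Integrable fun z => F z * G z := by
  obtain ⟨B, hB⟩ := hG.bdd
  refine h.int.mul_bdd (c := B) hG.meas.aestronglyMeasurable (Eventually.of_forall fun x => ?_)
  rw [Real.norm_eq_abs]
  exact hB x

lemma disc_tr {F : ℝ → ℝ} {D : ℝ} (h : Nice F) (hD : Disc F D) (b : ℕ → ℝ) (L : ℕ) (a : ℝ) :
    Disc (tr b L a F) (L * D) := by
  intro x y
  unfold tr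
  rw [intervalIntegral.integral_finset_sum]
  · refine (Finset.abs_sum_le_sum_abs _ _).trans ?_
    refine (Finset.sum_le_sum (g := fun _ => D) fun l _ => ?_).trans ?_
    · rw [intervalIntegral.integral_comp_sub_right (fun z => F z)]
      exact hD _ _
    · simp
  · intro l _
    exact ((h.shift (a * b l)).int).intervalIntegrable

lemma l1_tr {F : ℝ → ℝ} (h : Nice F) (b : ℕ → ℝ) (L : ℕ) (a : ℝ) :
    l1 (tr b L a F) ≤ L * l1 F := by
  unfold l1 tr
  have h1 : ∫ z, |∑ l ∈ Finset.range L, F (z - a * b l)| ≤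
      ∫ z, ∑ l ∈ Finset.range L, |F (z - a * b l)| := by
    refine integral_mono ?_ ?_ fun z => Finset.abs_sum_le_sum_abs _ _
    · exact (h.tr b L a).int.abs
    · exact integrable_finset_sum _ fun l _ => (h.shift (a * b l)).int.abs
  refine h1.trans ?_
  rw [integral_finset_sum _ fun l _ => (h.shift (a * b l)).int.abs]
  have : ∀ l ∈ Finset.range L, ∫ z, |F (z - a * b l)| = ∫ z, |F z| := by
    intro l _
    exact integral_sub_right_eq_self (fun z => |F z|) (a * b l)
  rw [Finset.sum_congr rfl this]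
  simp

lemma cor_zero (F : ℝ → ℝ) : cor F 0 = en F := by
  unfold cor en
  simp [sq]

lemma en_tr {F : ℝ → ℝ} (h : Nice F) (b : ℕ → ℝ) (L : ℕ) (a : ℝ) :
    en (tr b L a F) = ∑ l ∈ Finset.range L, ∑ l' ∈ Finset.range L, cor F (a * (b l - b l')) := by
  unfold en tr
  have h1 : ∀ z, (∑ l ∈ Finset.range L, F (z - a * b l)) ^ 2 =
      ∑ l ∈ Finset.range L, ∑ l' ∈ Finset.range L, F (z - a * b l) * F (z - a * b l') := by
    intro z
    rw [sq, Finset.sum_mul_sum]
  simp_rw [h1]
  rw [integral_finset_sum _ fun l _ => integrable_finset_sum _ fun l' _ =>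
    (h.shift (a * b l)).sq_int _ (h.shift (a * b l'))]
  refine Finset.sum_congr rfl fun l _ => ?_
  rw [integral_finset_sum _ fun l' _ =>
    (h.shift (a * b l)).sq_int _ (h.shift (a * b l'))]
  refine Finset.sum_congr rfl fun l' _ => ?_
  unfold cor
  rw [← integral_sub_right_eq_self (fun z => F z * F (z + a * (b l - b l'))) (a * b l)]
  congr 1
  ext z
  congr 2
  ring

lemma prod_int {F : ℝ → ℝ} (h : Nice F) (c p q : ℝ) :
    Integrable (Function.uncurry fun (a : ℝ) (z : ℝ) => F z * F (z + a * c))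
      ((volume.restrict (Ioc p q)).prod volume) := by
  obtain ⟨B, hB⟩ := h.bdd
  have h1 : Integrable (fun x : ℝ × ℝ => (fun _ : ℝ => (1:ℝ)) x.1 * F x.2)
      ((volume.restrict (Ioc p q)).prod volume) := by
    refine Integrable.mul_prod (f := fun _ : ℝ => (1:ℝ)) (g := F) ?_ h.int
    exact integrable_const _
  have h2 : Integrable (fun x : ℝ × ℝ => F x.2)
      ((volume.restrict (Ioc p q)).prod volume) := by
    simpa using h1
  have h3 : Function.uncurry (fun (a : ℝ) (z : ℝ) => F z * F (z + a * c)) =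
      fun x : ℝ × ℝ => F x.2 * F (x.2 + x.1 * c) := by
    ext ⟨a, z⟩
    rfl
  rw [h3]
  refine h2.mul_bdd (c := B) ?_ (Eventually.of_forall fun x => ?_)
  · refine (h.meas.comp ?_).aestronglyMeasurable
    fun_prop
  · rw [Real.norm_eq_abs]
    exact hB _

lemma cor_int {F : ℝ → ℝ} (h : Nice F) (c p q : ℝ) :
    Integrable (fun a => cor F (a * c)) (volume.restrict (Ioc p q)) :=
  (prod_int h c p q).integral_prod_left

lemma int_cor_le {F : ℝ → ℝ} {D : ℝ} (h : Nice F) (hD : Disc F D) {c : ℝ} (hc : c ≠ 0)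
    {p q : ℝ} (hpq : p ≤ q) :
    ∫ a in Ioc p q, cor F (a * c) ≤ D * l1 F / |c| := by
  unfold cor
  rw [integral_integral_swap (prod_int h c p q)]
  have hcc : 0 < |c| := abs_pos.2 hc
  have h1 : ∀ z, ∫ a in Ioc p q, F z * F (z + a * c) ≤ |F z| * (D / |c|) := by
    intro z
    rw [integral_const_mul]
    rw [← intervalIntegral.integral_of_le hpq]
    have h2 : ∫ a in p..q, F (z + a * c) = c⁻¹ * ∫ y in (z + p * c)..(z + q * c), F y := by
      have := intervalIntegral.integral_comp_add_mul (a := p) (b := q) F hc z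
      simp only [smul_eq_mul] at this
      rw [mul_comm p c, mul_comm q c, ← this]
      congr 1
      ext a
      rw [mul_comm a c]
    rw [h2]
    refine (le_abs_self _).trans ?_
    rw [abs_mul, abs_mul, abs_inv]
    refine mul_le_mul_of_nonneg_left ?_ (abs_nonneg _)
    rw [div_eq_inv_mul]
    exact mul_le_mul_of_nonneg_left (hD _ _) (inv_nonneg.2 hcc.le)
  refine (integral_mono ?_ ?_ h1).trans ?_
  · exact (prod_int h c p q).integral_prod_right
  · exact h.int.abs.mul_const _
  · rw [integral_mul_const]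
    unfold l1
    apply le_of_eq
    field_simp

/-- harmonic sum -/
noncomputable def hs (L : ℕ) : ℝ := ∑ m ∈ Finset.range L, 1 / ((m : ℝ) + 1)

lemma hs_mono {L L' : ℕ} (h : L ≤ L') : hs L ≤ hs L' :=
  Finset.sum_le_sum_of_subset_of_nonneg (Finset.range_mono h) fun _ _ _ => by positivity

lemma hs_nonneg (L : ℕ) : 0 ≤ hs L := Finset.sum_nonneg fun _ _ => by positivity

lemma hs_le (L : ℕ) : hs L ≤ 1 + Real.log L := by
  have := harmonic_le_one_add_log L
  refine le_trans (le_of_eq ?_) this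
  unfold hs harmonic
  push_cast
  exact Finset.sum_congr rfl fun m _ => by rw [one_div]

lemma row_sum {L l : ℕ} (hl : l < L) :
    ∑ l' ∈ (Finset.range L).erase l, 1 / |(l : ℝ) - l'| ≤ 2 * hs L := by
  have hsplit : (Finset.range L).erase l = Finset.range l ∪ Finset.Ico (l + 1) L := by
    ext x
    simp only [Finset.mem_erase, Finset.mem_range, Finset.mem_union, Finset.mem_Ico]
    omega
  have hdisj : Disjoint (Finset.range l) (Finset.Ico (l + 1) L) := by
    rw [Finset.disjoint_left]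
    intro x
    simp only [Finset.mem_range, Finset.mem_Ico]
    omega
  rw [hsplit, Finset.sum_union hdisj, two_mul]
  refine add_le_add ?_ ?_
  · have h1 : ∑ l' ∈ Finset.range l, 1 / |(l : ℝ) - l'| = hs l := by
      unfold hs
      rw [← Finset.sum_range_reflect]
      refine Finset.sum_congr rfl fun m hm => ?_
      rw [Finset.mem_range] at hm
      have : ((l - 1 - m : ℕ) : ℝ) = (l : ℝ) - 1 - m := by
        rw [Nat.cast_sub (by omega), Nat.cast_sub (by omega)]
        simp
      rw [this]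
      congr 1
      rw [show (l : ℝ) - ((l : ℝ) - 1 - m) = m + 1 by ring]
      exact abs_of_nonneg (by positivity)
    rw [h1]
    exact hs_mono hl.le
  · have h1 : ∑ l' ∈ Finset.Ico (l + 1) L, 1 / |(l : ℝ) - l'| = hs (L - (l + 1)) := by
      unfold hs
      rw [Finset.sum_Ico_eq_sum_range]
      refine Finset.sum_congr rfl fun m hm => ?_
      congr 1
      push_cast
      rw [show (l : ℝ) - (l + 1 + m) = -(m + 1) by ring, abs_neg]
      exact abs_of_nonneg (by positivity)
    rw [h1]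
    exact hs_mono (by omega)

lemma int_en_tr {F : ℝ → ℝ} {D : ℝ} (h : Nice F) (hD : Disc F D) (b : ℕ → ℝ) (L : ℕ)
    {G : ℝ} (hG : 0 < G)
    (hb : ∀ l < L, ∀ l' < L, G * |(l : ℝ) - l'| ≤ |b l - b l'|) {p q : ℝ} (hpq : p ≤ q) :
    ∫ a in Ioc p q, en (tr b L a F) ≤
      (q - p) * (L * en F) + L * (2 * hs L) * (D * l1 F / G) := by
  simp_rw [en_tr h]
  rw [integral_finset_sum _ fun l _ => integrable_finset_sum _ fun l' _ => cor_int h _ p q]
  have hrow : ∀ l ∈ Finset.range L,
      ∫ a in Ioc p q, ∑ l' ∈ Finset.range L, cor F (a * (b l - b l')) ≤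
        (q - p) * en F + (2 * hs L) * (D * l1 F / G) := by
    intro l hl
    have hl' := Finset.mem_range.1 hl
    rw [integral_finset_sum _ fun l' _ => cor_int h _ p q]
    rw [← Finset.add_sum_erase _ _ hl]
    refine add_le_add ?_ ?_
    · simp only [sub_self, mul_zero, cor_zero]
      rw [integral_const]
      simp [hpq]
    · refine (Finset.sum_le_sum (g := fun l' : ℕ => (1 / |(l : ℝ) - (l' : ℝ)|) * (D * l1 F / G))
        fun l' hl'' => ?_).trans ?_
      · have hne : l' ≠ l := Finset.ne_of_mem_erase hl''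
        have hlt : l' < L := Finset.mem_range.1 (Finset.mem_of_mem_erase hl'')
        have h1 : 0 < |(l : ℝ) - l'| := by
          rw [abs_pos, sub_ne_zero]
          exact fun e => hne (by exact_mod_cast e.symm)
        have h2 := hb l hl' l' hlt
        have h3 : 0 < |b l - b l'| := lt_of_lt_of_le (mul_pos hG h1) h2
        refine (int_cor_le h hD (abs_pos.1 h3) hpq).trans ?_
        have hDl : 0 ≤ D * l1 F := mul_nonneg hD.nonneg (l1_nonneg F)
        calc D * l1 F / |b l - b l'| ≤ D * l1 F / (G * |(l : ℝ) - l'|) :=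
              div_le_div_of_nonneg_left hDl (mul_pos hG h1) h2
          _ = _ := by field_simp
      · rw [← Finset.sum_mul]
        refine mul_le_mul_of_nonneg_right (row_sum hl') ?_
        exact div_nonneg (mul_nonneg hD.nonneg (l1_nonneg F)) hG.le
  refine (Finset.sum_le_sum hrow).trans ?_
  rw [Finset.sum_const, Finset.card_range, nsmul_eq_mul]
  apply le_of_eq
  ring

lemma en_tr_int {F : ℝ → ℝ} (h : Nice F) (b : ℕ → ℝ) (L : ℕ) (p q : ℝ) :
    Integrable (fun a => en (tr b L a F)) (volume.restrict (Ioc p q)) := by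
  simp_rw [en_tr h]
  exact integrable_finset_sum _ fun l _ => integrable_finset_sum _ fun l' _ => cor_int h _ p q

end U131.MW
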