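import Pool.Agent.U131.MW.A

open MeasureTheory Set Filter
open scoped ENNReal Topology

namespace U131.MW

/-- some element of `S` lies in `(M - H, M]` -/
def Hit (S : Set ℝ) (H M : ℝ) : Prop := ∃ σ ∈ S, M - H < σ ∧ σ ≤ M

/-- exceptional set -/
def Ex (S : Set ℝ) (H u v : ℝ) : Set ℝ := {M | M ∈ Icc u v ∧ ¬ Hit S H M}

/-- sum set `S + a A` -/
def add (S : Set ℝ) (a : ℝ) (A : Set ℕ) : Set ℝ := {x | ∃ σ ∈ S, ∃ n ∈ A, x = σ + a * (n : ℝ)}

lemma add_countable {S : Set ℝ} (hS : S.Countable) (a : ℝ) (A : Set ℕ) : (add S a A).Countable := by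
  have : add S a A = (fun x : ℝ × ℕ => x.1 + a * (x.2 : ℝ)) '' (S ×ˢ A) := by
    ext x
    simp only [add, mem_setOf_eq, mem_image, mem_prod, Prod.exists]
    constructor
    · rintro ⟨σ, hσ, n, hn, rfl⟩
      exact ⟨σ, n, ⟨hσ, hn⟩, rfl⟩
    · rintro ⟨σ, n, ⟨hσ, hn⟩, rfl⟩
      exact ⟨σ, hσ, n, hn, rfl⟩
  rw [this]
  exact (hS.prod (Set.to_countable A)).image _

lemma meas_hit {S : Set ℝ} (hS : S.Countable) (H : ℝ) : MeasurableSet {M | Hit S H M} := by
  have : {M | Hit S H M} = ⋃ σ ∈ S, Ico σ (σ + H) := by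
    ext M
    simp only [Hit, mem_setOf_eq, mem_iUnion, mem_Ico, exists_prop]
    constructor
    · rintro ⟨σ, hσ, h1, h2⟩
      exact ⟨σ, hσ, h2, by linarith⟩
    · rintro ⟨σ, hσ, h1, h2⟩
      exact ⟨σ, hσ, by linarith, h1⟩
  rw [this]
  exact MeasurableSet.biUnion hS fun _ _ => measurableSet_Ico

lemma meas_ex {S : Set ℝ} (hS : S.Countable) (H u v : ℝ) : MeasurableSet (Ex S H u v) :=
  measurableSet_Icc.inter (meas_hit hS H).compl

lemma hit_add {S : Set ℝ} {H M a : ℝ} {A : Set ℕ} {b : ℕ} (hb : b ∈ A)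
    (h : Hit S H (M - a * b)) : Hit (add S a A) H M := by
  obtain ⟨σ, hσ, h1, h2⟩ := h
  exact ⟨σ + a * b, ⟨σ, hσ, b, hb, rfl⟩, by linarith, by linarith⟩

lemma ex_add {S : Set ℝ} {H u v a q B : ℝ} {A : Set ℕ} {b : ℕ} (hb : b ∈ A) (ha0 : 0 ≤ a)
    (haq : a ≤ q) (hB : (b : ℝ) ≤ B) {M : ℝ} (hM : M ∈ Ex (add S a A) H (u + q * B) v) :
    M - a * b ∈ Ex S H u v := by
  obtain ⟨⟨h1, h2⟩, h3⟩ := hM
  have hab : a * b ≤ q * B := mul_le_mul haq hB (by positivity) (ha0.trans haq)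
  have hab0 : 0 ≤ a * b := by positivity
  exact ⟨⟨by linarith, by linarith⟩, fun h => h3 (hit_add hb h)⟩

/-- the pair correlation of a measurable set -/
noncomputable def pc (E : Set ℝ) (u : ℝ) : ℝ≥0∞ := volume {z | z ∈ E ∧ z + u ∈ E}

lemma vol_ex_add_le {S : Set ℝ} {H u v a q B : ℝ} {A : Set ℕ} {b b' : ℕ}
    (hb : b ∈ A) (hb' : b' ∈ A) (ha0 : 0 ≤ a)
    (haq : a ≤ q) (hB : (b : ℝ) ≤ B) (hB' : (b' : ℝ) ≤ B) :
    volume (Ex (add S a A) H (u + q * B) v) ≤ pc (Ex S H u v) (a * ((b : ℝ) - b')) := by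
  have h1 : Ex (add S a A) H (u + q * B) v ⊆ (fun x => x + (-(a * b))) ⁻¹'
      {z | z ∈ Ex S H u v ∧ z + a * ((b : ℝ) - b') ∈ Ex S H u v} := by
    intro M hM
    refine ⟨?_, ?_⟩
    · have := ex_add hb ha0 haq hB hM
      simpa [sub_eq_add_neg] using this
    · have := ex_add hb' ha0 haq hB' hM
      have e : M + (-(a * b)) + a * ((b : ℝ) - b') = M - a * b' := by ring
      show M + (-(a * b)) + a * ((b : ℝ) - b') ∈ Ex S H u v
      rw [e]
      exact this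
  refine (measure_mono h1).trans ?_
  rw [measure_preimage_add_right]
  rfl

lemma pc_eq {E : Set ℝ} (hE : MeasurableSet E) (u : ℝ) :
    pc E u = ∫⁻ z, E.indicator (fun _ => (1 : ℝ≥0∞)) z * E.indicator (fun _ => (1 : ℝ≥0∞)) (z + u) := by
  have h1 : MeasurableSet {z | z ∈ E ∧ z + u ∈ E} :=
    hE.inter ((measurable_id.add_const u) hE)
  unfold pc
  rw [← lintegral_indicator_one h1]
  refine lintegral_congr fun z => ?_
  by_cases h2 : z ∈ E <;> by_cases h3 : z + u ∈ E <;> simp [h2, h3, indicator]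

lemma meas_pc_aux {E : Set ℝ} (hE : MeasurableSet E) (c : ℝ) :
    Measurable (Function.uncurry fun (a : ℝ) (z : ℝ) =>
      E.indicator (fun _ => (1 : ℝ≥0∞)) z * E.indicator (fun _ => (1 : ℝ≥0∞)) (z + a * c)) := by
  have h1 : Measurable (E.indicator (fun _ => (1 : ℝ≥0∞))) := measurable_const.indicator hE
  have h2 : Measurable fun x : ℝ × ℝ => E.indicator (fun _ => (1 : ℝ≥0∞)) x.2 :=
    h1.comp measurable_snd
  have h3 : Measurable fun x : ℝ × ℝ => E.indicator (fun _ => (1 : ℝ≥0∞)) (x.2 + x.1 * c) :=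
    h1.comp (by fun_prop)
  exact h2.mul h3

lemma meas_pc {E : Set ℝ} (hE : MeasurableSet E) (c : ℝ) :
    Measurable fun a => pc E (a * c) := by
  simp_rw [pc_eq hE]
  exact Measurable.lintegral_prod_right (meas_pc_aux hE c)

lemma lint_pc_le {E : Set ℝ} (hE : MeasurableSet E) {c : ℝ} (hc : c ≠ 0) (p q : ℝ) :
    ∫⁻ a in Ioc p q, pc E (a * c) ≤ ENNReal.ofReal |c⁻¹| * volume E ^ 2 := by
  simp_rw [pc_eq hE]
  refine (lintegral_mono' Measure.restrict_le_self le_rfl).trans ?_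
  rw [lintegral_lintegral_swap (meas_pc_aux hE c).aemeasurable]
  have h1 : Measurable (E.indicator (fun _ => (1 : ℝ≥0∞))) := measurable_const.indicator hE
  have h4 : ∀ z : ℝ, ∫⁻ a, E.indicator (fun _ => (1 : ℝ≥0∞)) z *
      E.indicator (fun _ => (1 : ℝ≥0∞)) (z + a * c) =
      E.indicator (fun _ => (1 : ℝ≥0∞)) z * (ENNReal.ofReal |c⁻¹| * volume E) := by
    intro z
    rw [lintegral_const_mul' _ _ (by
      by_cases hz : z ∈ E <;> simp [hz])]
    congr 1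
    have h5 : ∀ a : ℝ, E.indicator (fun _ => (1 : ℝ≥0∞)) (z + a * c) =
        ((fun a : ℝ => a * c) ⁻¹' ((fun x : ℝ => z + x) ⁻¹' E)).indicator 1 a := by
      intro a
      rfl
    simp_rw [h5]
    rw [lintegral_indicator_one, Real.volume_preimage_mul_right hc, measure_preimage_add]
    exact (measurable_id.mul_const c) ((measurable_id.const_add z) hE)
  simp_rw [h4]
  rw [lintegral_mul_const _ h1, lintegral_indicator_const hE]
  apply le_of_eq
  ring

/-- relation between a function and a set of sums -/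
def Rel (F : ℝ → ℝ) (S : Set ℝ) (H u v c : ℝ) : Prop :=
  ∀ M ∈ Icc u v, ¬ Hit S H M → F M ≤ -c

lemma rel_tr {F : ℝ → ℝ} {S : Set ℝ} {H u v c a q B : ℝ} (h : Rel F S H u v c)
    {A : Set ℕ} {b : ℕ → ℕ} {L : ℕ} (hb : ∀ l < L, b l ∈ A) (hB : ∀ l < L, (b l : ℝ) ≤ B)
    (ha0 : 0 ≤ a) (haq : a ≤ q) :
    Rel (tr (fun l => (b l : ℝ)) L a F) (add S a A) H (u + q * B) v (L * c) := by
  intro M hM hH
  unfold tr
  have h1 : ∀ l ∈ Finset.range L, F (M - a * (b l : ℝ)) ≤ -c := by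
    intro l hl
    have hl' := Finset.mem_range.1 hl
    have := ex_add (hb l hl') ha0 haq (hB l hl') (M := M) (H := H) (u := u) (v := v) (S := S)
      ⟨hM, hH⟩
    exact h _ this.1 this.2
  refine (Finset.sum_le_sum h1).trans ?_
  simp

lemma vol_ex_le {F : ℝ → ℝ} (hF : Nice F) {S : Set ℝ} {H u v c : ℝ} (h : Rel F S H u v c)
    (hc : 0 < c) : volume (Ex S H u v) ≤ ENNReal.ofReal (en F / c ^ 2) := by
  have hint : Integrable fun z => F z ^ 2 := by
    have := hF.sq_int F hF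
    simpa [sq] using this
  have h1 : Ex S H u v ⊆ {z | c ^ 2 ≤ F z ^ 2} := by
    intro M hM
    have := h M hM.1 hM.2
    show c ^ 2 ≤ F M ^ 2
    nlinarith
  refine (measure_mono h1).trans ?_
  have h2 := mul_meas_ge_le_integral_of_nonneg (μ := volume)
    (Eventually.of_forall fun z => sq_nonneg (F z)) hint (c ^ 2)
  have hc2 : 0 < c ^ 2 := by positivity
  have hfin : volume {z | c ^ 2 ≤ F z ^ 2} ≠ ⊤ := by
    have := hint.measure_ge_lt_top hc2
    exact this.ne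
  rw [ENNReal.le_ofReal_iff_toReal_le hfin (by positivity [en_nonneg F])]
  rw [le_div_iff₀ hc2, mul_comm]
  exact h2

end U131.MW
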