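import Mathlib

open MeasureTheory Set Filter
open scoped ENNReal Topology

namespace U131.MW

/-- the scale -/
noncomputable def NN (i : ℕ) : ℝ := 2 ^ i

lemma NN_pos (i : ℕ) : 0 < NN i := by unfold NN; positivity

lemma NN_one_le (i : ℕ) : 1 ≤ NN i := by unfold NN; exact one_le_pow₀ (by norm_num)

lemma NN_rpow (i : ℕ) (x : ℝ) : NN i ^ x = ((2:ℝ) ^ x) ^ i := by
  unfold NN
  rw [← Real.rpow_natCast, ← Real.rpow_natCast, ← Real.rpow_mul (by norm_num),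
    ← Real.rpow_mul (by norm_num), mul_comm]

lemma NN_rpow_pos (i : ℕ) (x : ℝ) : 0 < NN i ^ x := Real.rpow_pos_of_pos (NN_pos i) x

lemma NN_rpow_mono (i : ℕ) {x y : ℝ} (h : x ≤ y) : NN i ^ x ≤ NN i ^ y :=
  Real.rpow_le_rpow_of_exponent_le (NN_one_le i) h

/-- linear factors are absorbed -/
lemma absorb (C : ℝ) {x y : ℝ} (h : x < y) :
    ∀ᶠ i : ℕ in atTop, C * ((i : ℝ) + 1) * NN i ^ x ≤ NN i ^ y := by
  have hr : 1 < (2:ℝ) ^ (y - x) := Real.one_lt_rpow (by norm_num) (by linarith)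
  have h1 : Tendsto (fun n : ℕ => (n:ℝ) ^ 1 / ((2:ℝ) ^ (y - x)) ^ n) atTop (𝓝 0) :=
    tendsto_pow_const_div_const_pow_of_one_lt 1 hr
  have h0 : Tendsto (fun n : ℕ => (n:ℝ) ^ 0 / ((2:ℝ) ^ (y - x)) ^ n) atTop (𝓝 0) :=
    tendsto_pow_const_div_const_pow_of_one_lt 0 hr
  have h2 : Tendsto (fun n : ℕ => |C| * ((n:ℝ) ^ 1 / ((2:ℝ) ^ (y - x)) ^ n +
      (n:ℝ) ^ 0 / ((2:ℝ) ^ (y - x)) ^ n)) atTop (𝓝 (|C| * (0 + 0))) :=
    (h1.add h0).const_mul _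
  have h3 : ∀ᶠ n : ℕ in atTop, |C| * ((n:ℝ) ^ 1 / ((2:ℝ) ^ (y - x)) ^ n +
      (n:ℝ) ^ 0 / ((2:ℝ) ^ (y - x)) ^ n) < 1 := by
    apply h2.eventually_lt_const
    norm_num
  filter_upwards [h3] with i hi
  have hpos : 0 < ((2:ℝ) ^ (y - x)) ^ i := by positivity
  have h4 : |C| * ((i:ℝ) + 1) < ((2:ℝ) ^ (y - x)) ^ i := by
    have e : |C| * ((i:ℝ) ^ 1 / ((2:ℝ) ^ (y - x)) ^ i + (i:ℝ) ^ 0 / ((2:ℝ) ^ (y - x)) ^ i) =
        |C| * ((i:ℝ) + 1) / ((2:ℝ) ^ (y - x)) ^ i := by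
      rw [pow_one, pow_zero]
      ring
    rw [e, div_lt_one hpos] at hi
    exact hi
  have h5 : NN i ^ y = ((2:ℝ) ^ (y - x)) ^ i * NN i ^ x := by
    rw [← NN_rpow, ← Real.rpow_add (NN_pos i)]
    congr 1
    ring
  rw [h5]
  refine mul_le_mul_of_nonneg_right ?_ (NN_rpow_pos i x).le
  have h6 : C * ((i:ℝ) + 1) ≤ |C| * ((i:ℝ) + 1) :=
    mul_le_mul_of_nonneg_right (le_abs_self C) (by positivity)
  linarith

lemma absorb' (C : ℝ) {x y : ℝ} (h : x < y) :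
    ∀ᶠ i : ℕ in atTop, C * NN i ^ x ≤ NN i ^ y := by
  filter_upwards [absorb |C| h] with i hi
  have h1 : 0 ≤ |C| * NN i ^ x := mul_nonneg (abs_nonneg _) (NN_rpow_pos i x).le
  have h2 : C * NN i ^ x ≤ |C| * NN i ^ x :=
    mul_le_mul_of_nonneg_right (le_abs_self C) (NN_rpow_pos i x).le
  have h3 : |C| * ((i:ℝ) + 1) * NN i ^ x = |C| * NN i ^ x + (i:ℝ) * (|C| * NN i ^ x) := by ring
  have h4 : 0 ≤ (i:ℝ) * (|C| * NN i ^ x) := by positivity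
  linarith

/-- Markov + Borel–Cantelli -/
lemma bc {μ : Measure ℝ} (f : ℕ → ℝ → ℝ≥0∞) {x y : ℝ}
    (hxy : x < y) (h : ∀ᶠ i in atTop, AEMeasurable (f i) μ ∧
      ∫⁻ a, f i a ∂μ ≤ ENNReal.ofReal (NN i ^ x)) :
    ∀ᵐ a ∂μ, ∀ᶠ i in atTop, f i a ≤ ENNReal.ofReal (NN i ^ y) := by
  obtain ⟨i0, hi0⟩ := eventually_atTop.1 h
  have hr1 : (2:ℝ) ^ (x - y) < 1 := Real.rpow_lt_one_of_one_lt_of_neg (by norm_num) (by linarith)
  have hr0 : 0 < (2:ℝ) ^ (x - y) := by positivity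
  let s : ℕ → Set ℝ := fun i => {a | i0 ≤ i ∧ ENNReal.ofReal (NN i ^ y) ≤ f i a}
  have hs : ∀ i, μ (s i) ≤ ENNReal.ofReal (((2:ℝ) ^ (x - y)) ^ i) := by
    intro i
    by_cases hi : i0 ≤ i
    · have h1 : s i ⊆ {a | ENNReal.ofReal (NN i ^ y) ≤ f i a} := fun a ha => ha.2
      refine (measure_mono h1).trans ?_
      have hy0 : ENNReal.ofReal (NN i ^ y) ≠ 0 := by
        simp [NN_rpow_pos i y]
      refine (meas_ge_le_lintegral_div (hi0 i hi).1 hy0 ENNReal.ofReal_ne_top).trans ?_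
      refine (ENNReal.div_le_div_right (hi0 i hi).2 _).trans ?_
      rw [← ENNReal.ofReal_div_of_pos (NN_rpow_pos i y), ← Real.rpow_sub (NN_pos i), NN_rpow]
    · have h1 : s i = ∅ := by
        ext a
        simp [s, hi]
      rw [h1]
      simp
  have hsum : ∑' i, μ (s i) ≠ ∞ := by
    refine ne_top_of_le_ne_top ?_ (ENNReal.tsum_le_tsum hs)
    rw [← ENNReal.ofReal_tsum_of_nonneg (fun i => by positivity)
      (summable_geometric_of_lt_one hr0.le hr1)]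
    exact ENNReal.ofReal_ne_top
  filter_upwards [ae_eventually_notMem hsum] with a ha
  filter_upwards [ha, eventually_ge_atTop i0] with i h1 h2
  have h3 : ¬ (i0 ≤ i ∧ ENNReal.ofReal (NN i ^ y) ≤ f i a) := h1
  push Not at h3
  exact (h3 h2).le

end U131.MW
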