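import Pool.Agent.U131.MW.B

open MeasureTheory Set Filter
open scoped ENNReal Topology

namespace U131.MW

/-- indicator of `[s, t)` -/
noncomputable def ind (s t : ℝ) (z : ℝ) : ℝ := (Ico s t).indicator (fun _ => (1:ℝ)) z

lemma ind_of_mem {s t z : ℝ} (h : z ∈ Ico s t) : ind s t z = 1 := by simp [ind, h]

lemma ind_of_notMem {s t z : ℝ} (h : z ∉ Ico s t) : ind s t z = 0 := by simp [ind, h]

lemma ind_nonneg (s t z : ℝ) : 0 ≤ ind s t z := by
  unfold ind
  exact indicator_nonneg (fun _ _ => zero_le_one) z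

lemma ind_le_one (s t z : ℝ) : ind s t z ≤ 1 := by
  by_cases h : z ∈ Ico s t
  · rw [ind_of_mem h]
  · rw [ind_of_notMem h]; exact zero_le_one

lemma ind_nice (s t : ℝ) : Nice (ind s t) := by
  refine ⟨measurable_const.indicator measurableSet_Ico, ⟨1, fun x => ?_⟩, ?_⟩
  · rw [abs_of_nonneg (ind_nonneg _ _ _)]
    exact ind_le_one _ _ _
  · unfold ind
    rw [integrable_indicator_iff measurableSet_Ico]
    exact integrableOn_const (by simp) (by simp)

lemma ind_int {w y s t : ℝ} (h : w ≤ y) :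
    ∫ z in w..y, ind s t z = max (min y t - max w s) 0 := by
  rw [intervalIntegral.integral_of_le h, integral_Ioc_eq_integral_Ioo, ← integral_Ico_eq_integral_Ioo]
  unfold ind
  rw [setIntegral_indicator measurableSet_Ico, Ico_inter_Ico, setIntegral_const]
  simp only [smul_eq_mul, mul_one]
  rw [Measure.real, Real.volume_Ico, ENNReal.toReal_ofReal']

lemma ind_int_total {s t : ℝ} (h : s ≤ t) : ∫ z, ind s t z = t - s := by
  unfold ind
  rw [integral_indicator measurableSet_Ico, setIntegral_const]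
  simp [h]

/-- elementary piece -/
noncomputable def phi (σ H w H0 : ℝ) (z : ℝ) : ℝ :=
  ind σ (σ + H) z - H / H0 * ind w (w + H0) z

section
variable {σ H w H0 : ℝ}

lemma phi_nice (σ H w H0 : ℝ) : Nice (phi σ H w H0) := by
  obtain ⟨B1, hB1⟩ := (ind_nice σ (σ + H)).bdd
  obtain ⟨B2, hB2⟩ := (ind_nice w (w + H0)).bdd
  refine ⟨(ind_nice σ (σ + H)).meas.sub ((ind_nice w (w + H0)).meas.const_mul _),
    ⟨B1 + |H / H0| * B2, fun x => ?_⟩,
    (ind_nice σ (σ + H)).int.sub ((ind_nice w (w + H0)).int.const_mul _)⟩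
  unfold phi
  refine (abs_sub _ _).trans (add_le_add (hB1 x) ?_)
  rw [abs_mul]
  exact mul_le_mul_of_nonneg_left (hB2 x) (abs_nonneg _)

lemma phi_off (h1 : w ≤ σ) (h2 : σ + H ≤ w + H0) {z : ℝ} (hz : z ∉ Ico w (w + H0)) :
    phi σ H w H0 z = 0 := by
  have h3 : z ∉ Ico σ (σ + H) := fun h => hz ⟨h1.trans h.1, h.2.trans_le h2⟩
  simp [phi, ind_of_notMem hz, ind_of_notMem h3]

lemma phi_abs (hH : 0 ≤ H) (hH0 : 0 < H0) (hHH : H ≤ H0) (z : ℝ) : |phi σ H w H0 z| ≤ 1 := by
  unfold phi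
  have h1 := ind_nonneg σ (σ + H) z
  have h2 := ind_le_one σ (σ + H) z
  have h3 := ind_nonneg w (w + H0) z
  have h4 := ind_le_one w (w + H0) z
  have h5 : 0 ≤ H / H0 := by positivity
  have h6 : H / H0 ≤ 1 := by rw [div_le_one hH0]; exact hHH
  rw [abs_le]
  constructor <;> nlinarith

lemma phi_l1 (hH : 0 ≤ H) (hH0 : 0 < H0) : ∫ z, |phi σ H w H0 z| ≤ 2 * H := by
  have h1 : ∀ z, |phi σ H w H0 z| ≤ ind σ (σ + H) z + H / H0 * ind w (w + H0) z := by
    intro z
    unfold phi
    refine (abs_sub _ _).trans (add_le_add ?_ ?_)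
    · rw [abs_of_nonneg (ind_nonneg _ _ _)]
    · rw [abs_mul, abs_of_nonneg (ind_nonneg _ _ _), abs_of_nonneg (by positivity)]
  refine (integral_mono (phi_nice σ H w H0).int.abs
    ((ind_nice σ (σ + H)).int.add ((ind_nice w (w + H0)).int.const_mul _)) h1).trans ?_
  have h2 := integral_add (ind_nice σ (σ + H)).int ((ind_nice w (w + H0)).int.const_mul (H / H0))
  refine (le_of_eq h2).trans ?_
  rw [integral_const_mul, ind_int_total (by linarith), ind_int_total (by linarith)]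
  apply le_of_eq
  field_simp
  ring

lemma phi_anti (hH : 0 ≤ H) (hH0 : 0 < H0) (h1 : w ≤ σ) (h2 : σ + H ≤ w + H0) (y : ℝ) :
    |∫ z in w..y, phi σ H w H0 z| ≤ H ∧
      (y ∉ Ico w (w + H0) → ∫ z in w..y, phi σ H w H0 z = 0) := by
  have key : ∀ x y : ℝ, x ≤ y → ∫ z in x..y, phi σ H w H0 z =
      max (min y (σ + H) - max x σ) 0 - H / H0 * max (min y (w + H0) - max x w) 0 := by
    intro x y hxy
    unfold phi
    rw [intervalIntegral.integral_sub (ind_nice _ _).int.intervalIntegrable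
      ((ind_nice _ _).int.const_mul _).intervalIntegrable,
      intervalIntegral.integral_const_mul, ind_int hxy, ind_int hxy]
  rcases le_total y w with hy | hy
  · have h0 : ∫ z in w..y, phi σ H w H0 z = 0 := by
      rw [intervalIntegral.integral_symm, key y w hy]
      rw [min_eq_left (by linarith), min_eq_left (by linarith), max_eq_right (hy.trans h1),
        max_eq_right hy, max_eq_right (by linarith), max_eq_right (by linarith)]
      ring
    rw [h0]
    exact ⟨by simpa using hH, fun _ => rfl⟩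
  · rw [key w y hy]
    rw [max_eq_right h1, max_self]
    rcases le_or_gt (w + H0) y with hy2 | hy2
    · have e1 : min y (σ + H) = σ + H := min_eq_right (by linarith)
      have e2 : min y (w + H0) = w + H0 := min_eq_right hy2
      have e3 : max (min y (σ + H) - σ) 0 - H / H0 * max (min y (w + H0) - w) 0 = 0 := by
        rw [e1, e2, max_eq_left (by linarith), max_eq_left (by linarith)]
        field_simp
        ring
      rw [e3]
      exact ⟨by simpa using hH, fun _ => rfl⟩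
    · refine ⟨?_, fun h => absurd ⟨hy, hy2⟩ h⟩
      have e2 : min y (w + H0) = y := min_eq_left hy2.le
      rw [e2, max_eq_left (a := y - w) (by linarith)]
      have h3 : 0 ≤ max (min y (σ + H) - σ) 0 := le_max_right _ _
      have h4 : max (min y (σ + H) - σ) 0 ≤ H := by
        apply max_le _ hH
        have := min_le_right y (σ + H)
        linarith
      have h5 : 0 ≤ H / H0 * (y - w) := mul_nonneg (by positivity) (by linarith)
      have h6 : H / H0 * (y - w) ≤ H := by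
        rw [div_mul_eq_mul_div, div_le_iff₀ hH0]
        exact mul_le_mul_of_nonneg_left (by linarith) hH
      rw [abs_le]
      constructor <;> linarith

end

/-- the starting function -/
noncomputable def st (σ : ℕ → ℝ) (H u H0 : ℝ) (L : ℕ) (z : ℝ) : ℝ :=
  ∑ l ∈ Finset.range L, phi (σ l) H (u + l * H0) H0 z

section
variable {σ : ℕ → ℝ} {H u H0 : ℝ} {L : ℕ}

lemma st_nice (σ : ℕ → ℝ) (H u H0 : ℝ) (L : ℕ) : Nice (st σ H u H0 L) := by
  choose B hB using fun l : ℕ => (phi_nice (σ l) H (u + l * H0) H0).bdd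
  refine ⟨?_, ⟨∑ l ∈ Finset.range L, B l, fun x => ?_⟩, ?_⟩
  · exact Finset.measurable_sum _ fun l _ => (phi_nice (σ l) H (u + l * H0) H0).meas
  · unfold st
    exact (Finset.abs_sum_le_sum_abs _ _).trans (Finset.sum_le_sum fun l _ => hB l x)
  · exact integrable_finset_sum _ fun l _ => (phi_nice (σ l) H (u + l * H0) H0).int

lemma cell_unique (hH0 : 0 < H0) {l l' : ℕ} {z : ℝ}
    (h : z ∈ Ico (u + l * H0) (u + l * H0 + H0)) (h' : z ∈ Ico (u + l' * H0) (u + l' * H0 + H0)) :
    l = l' := by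
  have h1 : (l : ℝ) * H0 < (l' + 1) * H0 := by linarith [h.1, h'.2]
  have h2 : (l' : ℝ) * H0 < (l + 1) * H0 := by linarith [h'.1, h.2]
  have h3 : (l : ℝ) < l' + 1 := lt_of_mul_lt_mul_right h1 hH0.le
  have h4 : (l' : ℝ) < l + 1 := lt_of_mul_lt_mul_right h2 hH0.le
  have h5 : l < l' + 1 := by exact_mod_cast h3
  have h6 : l' < l + 1 := by exact_mod_cast h4
  omega

/-- a sum of terms at most one of which is active -/
lemma cell_sum (hH0 : 0 < H0) (f : ℕ → ℝ) (z : ℝ)
    (hf : ∀ l < L, z ∉ Ico (u + l * H0) (u + l * H0 + H0) → f l = 0) {B : ℝ} (hB0 : 0 ≤ B)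
    (hB : ∀ l < L, |f l| ≤ B) : |∑ l ∈ Finset.range L, f l| ≤ B := by
  by_cases h : ∃ l < L, z ∈ Ico (u + l * H0) (u + l * H0 + H0)
  · obtain ⟨l, hl, hz⟩ := h
    rw [Finset.sum_eq_single l]
    · exact hB l hl
    · intro l' hl' hne
      refine hf l' (Finset.mem_range.1 hl') fun hz' => hne (cell_unique hH0 hz' hz)
    · intro h
      exact absurd (Finset.mem_range.2 hl) h
  · push Not at h
    rw [Finset.sum_eq_zero]
    · simpa using hB0
    · intro l hl
      exact hf l (Finset.mem_range.1 hl) (h l (Finset.mem_range.1 hl))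

lemma st_abs (hH : 0 ≤ H) (hH0 : 0 < H0) (hHH : H ≤ H0)
    (h1 : ∀ l < L, u + l * H0 ≤ σ l) (h2 : ∀ l < L, σ l + H ≤ u + l * H0 + H0) (z : ℝ) :
    |st σ H u H0 L z| ≤ 1 :=
  cell_sum hH0 _ z (fun l hl hz => phi_off (h1 l hl) (h2 l hl) hz) zero_le_one
    fun l _ => phi_abs hH hH0 hHH z

lemma st_l1 (hH : 0 ≤ H) (hH0 : 0 < H0) : l1 (st σ H u H0 L) ≤ L * (2 * H) := by
  unfold l1 st
  refine (integral_mono (st_nice σ H u H0 L).int.abs (integrable_finset_sum _ fun l _ =>
    (phi_nice (σ l) H (u + l * H0) H0).int.abs) fun z => Finset.abs_sum_le_sum_abs _ _).trans ?_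
  rw [integral_finset_sum _ fun l _ => (phi_nice (σ l) H (u + l * H0) H0).int.abs]
  refine (Finset.sum_le_sum fun l _ => phi_l1 hH hH0).trans ?_
  simp

lemma st_en (hH : 0 ≤ H) (hH0 : 0 < H0) (hHH : H ≤ H0)
    (h1 : ∀ l < L, u + l * H0 ≤ σ l) (h2 : ∀ l < L, σ l + H ≤ u + l * H0 + H0) :
    en (st σ H u H0 L) ≤ L * (2 * H) := by
  refine le_trans ?_ (st_l1 (σ := σ) (u := u) (L := L) hH hH0)
  unfold en l1
  refine integral_mono ?_ (st_nice σ H u H0 L).int.abs fun z => ?_
  · have := (st_nice σ H u H0 L).sq_int _ (st_nice σ H u H0 L)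
    simpa [sq] using this
  · have h3 := st_abs hH hH0 hHH h1 h2 z
    have h4 := abs_nonneg (st σ H u H0 L z)
    show st σ H u H0 L z ^ 2 ≤ |st σ H u H0 L z|
    rw [← sq_abs]
    nlinarith

lemma st_disc (hH : 0 ≤ H) (hH0 : 0 < H0)
    (h1 : ∀ l < L, u + l * H0 ≤ σ l) (h2 : ∀ l < L, σ l + H ≤ u + l * H0 + H0) :
    Disc (st σ H u H0 L) (2 * H) := by
  intro x y
  have hI : ∀ l : ℕ, ∀ x y : ℝ, IntervalIntegrable (phi (σ l) H (u + l * H0) H0) volume x y :=
    fun l x y => (phi_nice (σ l) H (u + l * H0) H0).int.intervalIntegrable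
  have h3 : ∀ y : ℝ, |∑ l ∈ Finset.range L, ∫ z in (u + l * H0)..y,
      phi (σ l) H (u + l * H0) H0 z| ≤ H := by
    intro y
    exact cell_sum (u := u) hH0 _ y (fun l hl hz => (phi_anti hH hH0 (h1 l hl) (h2 l hl) y).2 hz) hH
      fun l hl => (phi_anti hH hH0 (h1 l hl) (h2 l hl) y).1
  have h4 : ∫ z in x..y, st σ H u H0 L z =
      (∑ l ∈ Finset.range L, ∫ z in (u + l * H0)..y, phi (σ l) H (u + l * H0) H0 z) -
      ∑ l ∈ Finset.range L, ∫ z in (u + l * H0)..x, phi (σ l) H (u + l * H0) H0 z := by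
    unfold st
    rw [intervalIntegral.integral_finset_sum fun l _ => hI l x y, ← Finset.sum_sub_distrib]
    refine Finset.sum_congr rfl fun l _ => ?_
    rw [intervalIntegral.integral_interval_sub_left (hI l _ _) (hI l _ _)]
  rw [h4]
  have h5 := h3 y
  have h6 := h3 x
  rw [abs_le] at h5 h6 ⊢
  constructor <;> linarith [h5.1, h5.2, h6.1, h6.2]

lemma st_rel (hH0 : 0 < H0)
    (h1 : ∀ l < L, u + l * H0 ≤ σ l) (h2 : ∀ l < L, σ l + H ≤ u + l * H0 + H0)
    {S : Set ℝ} (hS : ∀ l < L, σ l ∈ S) {v : ℝ} (hv : v < u + L * H0) :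
    Rel (st σ H u H0 L) S H u v (H / H0) := by
  intro M hM hHit
  set l := ⌊(M - u) / H0⌋₊ with hl
  have h3 : 0 ≤ (M - u) / H0 := div_nonneg (by linarith [hM.1]) hH0.le
  have h4 : (l : ℝ) ≤ (M - u) / H0 := Nat.floor_le h3
  have h5 : (M - u) / H0 < l + 1 := Nat.lt_floor_add_one _
  rw [le_div_iff₀ hH0] at h4
  rw [div_lt_iff₀ hH0] at h5
  have hlL : l < L := by
    have : (l : ℝ) * H0 < L * H0 := by linarith [hM.2]
    have := lt_of_mul_lt_mul_right this hH0.le
    exact_mod_cast this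
  have hz : M ∈ Ico (u + l * H0) (u + l * H0 + H0) := ⟨by linarith, by linarith⟩
  have h6 : st σ H u H0 L M = phi (σ l) H (u + l * H0) H0 M := by
    unfold st
    rw [Finset.sum_eq_single l]
    · intro l' hl' hne
      exact phi_off (h1 l' (Finset.mem_range.1 hl')) (h2 l' (Finset.mem_range.1 hl'))
        fun hz' => hne (cell_unique hH0 hz' hz)
    · intro h
      exact absurd (Finset.mem_range.2 hlL) h
  rw [h6]
  unfold phi
  rw [ind_of_mem hz]
  have h7 : M ∉ Ico (σ l) (σ l + H) := by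
    intro h
    exact hHit ⟨σ l, hS l hlL, by linarith [h.2], h.1⟩
  rw [ind_of_notMem h7]
  linarith

end

end U131.MW
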