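import Pool.Agent.U131.MW.E

open MeasureTheory Set Filter
open scoped ENNReal Topology

namespace U131.MW

/-- refinement state -/
def StR (κ τ ε : ℝ) (j : ℕ) (S : Set ℝ) (lo hi : ℝ) : Prop :=
  S.Countable ∧ ∃ F : ℕ → ℝ → ℝ, ∃ c : ℕ → ℝ, ∀ᶠ i in atTop,
    Nice (F i) ∧ Disc (F i) (NN i ^ (j * κ - τ + (j + 1) * ε)) ∧
    l1 (F i) ≤ NN i ^ ((j + 1) * κ - τ + (j + 1) * ε) ∧
    en (F i) ≤ NN i ^ ((j + 1) * κ - τ + (3 * j + 4) * ε) ∧
    NN i ^ (-τ - 1 + (j + 1) * κ - (j + 1) * ε) ≤ c i ∧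
    Rel (F i) S (NN i ^ (-τ)) (lo * NN i) (hi * NN i) (c i)

/-- squaring state -/
def StE (τ θ : ℝ) (S : Set ℝ) (lo hi : ℝ) : Prop :=
  S.Countable ∧ ∀ᶠ i in atTop,
    volume (Ex S (NN i ^ (-τ)) (lo * NN i) (hi * NN i)) ≤ ENNReal.ofReal (NN i ^ θ)

lemma Disc.mono {F : ℝ → ℝ} {D D' : ℝ} (h : Disc F D) (hD : D ≤ D') : Disc F D' :=
  fun x y => (h x y).trans hD

lemma Rel.mono {F : ℝ → ℝ} {S : Set ℝ} {H u u' v c : ℝ} (h : Rel F S H u v c) (hu : u ≤ u') :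
    Rel F S H u' v c := fun M hM hH => h M ⟨hu.trans hM.1, hM.2⟩ hH

lemma stepR {k : ℕ} (hk : 1 ≤ k) {A : Set ℕ} (hA : GapSet k A) {τ ε : ℝ} (hτ : 0 ≤ τ)
    (hε : 0 < ε) (hεk : ε ≤ 1 / (k : ℝ)) {j : ℕ} (hj : ((j : ℝ) + 1) * (1 / (k : ℝ)) ≤ 1 + τ)
    {S : Set ℝ} {lo hi : ℝ} (h : StR (1 / (k : ℝ)) τ ε j S lo hi) {p q : ℝ} (hp : 0 < p) (hpq : p ≤ q) {K : ℝ}
    (hK : 2 ≤ K) :
    ∀ᵐ a ∂(volume.restrict (Ioc p q)),
      StR (1 / (k : ℝ)) τ ε (j + 1) (add S a A) (lo + K * q) hi := by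
  obtain ⟨hS, F, c, hF⟩ := h
  set κ := 1 / (k : ℝ) with hκ
  have hκ1 : κ ≤ 1 := kinv_le hk
  have hκ0 : 0 < κ := kinv_pos hk
  have hjk : ((j : ℝ) + 1) * κ ≤ 1 + τ := hj
  have hpts := points hk hA hε hεk
  have hpts' : ∀ᶠ i in atTop, ∃ y : (ℕ → ℕ) × ℕ × ℝ, (∀ l < y.2.1, y.1 l ∈ A) ∧
      (∀ l < y.2.1, (y.1 l : ℝ) ≤ 2 * NN i) ∧ 0 < y.2.2 ∧
      (∀ l < y.2.1, ∀ l' < y.2.1, y.2.2 * |(l : ℝ) - l'| ≤ |(y.1 l : ℝ) - y.1 l'|) ∧
      NN i ^ (κ - ε) ≤ y.2.1 ∧ (y.2.1 : ℝ) ≤ NN i ^ (κ + ε) ∧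
      NN i ^ (1 - κ - ε) ≤ y.2.2 ∧ hs y.2.1 ≤ NN i ^ ε := by
    filter_upwards [hpts] with i hi
    obtain ⟨b, L, G, h⟩ := hi
    exact ⟨(b, L, G), h⟩
  obtain ⟨Y, hY⟩ := hpts'.choice
  let b : ℕ → ℕ → ℕ := fun i => (Y i).1
  let L : ℕ → ℕ := fun i => (Y i).2.1
  let G : ℕ → ℝ := fun i => (Y i).2.2
  have hY' : ∀ᶠ i in atTop, (∀ l < L i, b i l ∈ A) ∧
      (∀ l < L i, (b i l : ℝ) ≤ 2 * NN i) ∧ 0 < G i ∧
      (∀ l < L i, ∀ l' < L i, G i * |(l : ℝ) - l'| ≤ |(b i l : ℝ) - b i l'|) ∧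
      NN i ^ (κ - ε) ≤ L i ∧ (L i : ℝ) ≤ NN i ^ (κ + ε) ∧
      NN i ^ (1 - κ - ε) ≤ G i ∧ hs (L i) ≤ NN i ^ ε := hY
  have hbc := bc (μ := volume.restrict (Ioc p q))
    (fun i a => ENNReal.ofReal (en (tr (fun l => (b i l : ℝ)) (L i) a (F i))))
    (x := (j + 2) * κ - τ + (3 * j + 6) * ε) (y := (j + 2) * κ - τ + (3 * j + 7) * ε)
    (by linarith) (by
      filter_upwards [hF, hY', absorb' ((q - p) + 2)
        (show (j + 2) * κ - τ + (3 * j + 5) * ε < (j + 2) * κ - τ + (3 * j + 6) * ε by linarith)]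
        with i hFi hYi habs
      obtain ⟨hn, hD, hl1, hen, hc, hrel⟩ := hFi
      obtain ⟨hb1, hb2, hG0, hb3, hL1, hL2, hG1, hhs⟩ := hYi
      have hint := en_tr_int hn (fun l => (b i l : ℝ)) (L i) p q
      refine ⟨hint.aemeasurable.ennreal_ofReal, ?_⟩
      rw [← ofReal_integral_eq_lintegral_ofReal hint (Eventually.of_forall fun a => en_nonneg _)]
      apply ENNReal.ofReal_le_ofReal
      refine (int_en_tr hn hD (fun l => (b i l : ℝ)) (L i) hG0 hb3 hpq).trans ?_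
      have hNpos := NN_pos i
      have e1 : (q - p) * ((L i : ℝ) * en (F i)) ≤
          (q - p) * NN i ^ ((j + 2) * κ - τ + (3 * j + 5) * ε) := by
        refine mul_le_mul_of_nonneg_left ?_ (by linarith)
        refine (mul_le_mul hL2 hen (en_nonneg _) (NN_rpow_pos i _).le).trans ?_
        rw [← Real.rpow_add hNpos]
        apply le_of_eq
        congr 1
        ring
      have e2 : (L i : ℝ) * (2 * hs (L i)) *
          (NN i ^ (j * κ - τ + (j + 1) * ε) * l1 (F i) / G i) ≤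
          2 * NN i ^ ((j + 2) * κ - τ + (3 * j + 5) * ε) := by
        have e3 : NN i ^ (j * κ - τ + (j + 1) * ε) * l1 (F i) / G i ≤
            NN i ^ (j * κ - τ + (j + 1) * ε) * NN i ^ ((j + 1) * κ - τ + (j + 1) * ε) /
              NN i ^ (1 - κ - ε) := by
          refine div_le_div₀ (by positivity) ?_ (NN_rpow_pos i _) hG1
          exact mul_le_mul_of_nonneg_left hl1 (NN_rpow_pos i _).le
        have e4 : (L i : ℝ) * (2 * hs (L i)) ≤ NN i ^ (κ + ε) * (2 * NN i ^ ε) := by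
          refine mul_le_mul hL2 (by linarith) ?_ (NN_rpow_pos i _).le
          have := hs_nonneg (L i)
          positivity
        have e5 : 0 ≤ NN i ^ (j * κ - τ + (j + 1) * ε) * l1 (F i) / G i :=
          div_nonneg (mul_nonneg (NN_rpow_pos i _).le (l1_nonneg _)) hG0.le
        refine (mul_le_mul e4 e3 e5 (by positivity)).trans ?_
        rw [← Real.rpow_add hNpos, ← Real.rpow_sub hNpos]
        have e6 : NN i ^ (κ + ε) * (2 * NN i ^ ε) *
            NN i ^ (j * κ - τ + (j + 1) * ε + ((j + 1) * κ - τ + (j + 1) * ε) - (1 - κ - ε)) =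
            2 * NN i ^ ((2 * j + 3) * κ - 2 * τ - 1 + (2 * j + 5) * ε) := by
          have : NN i ^ ((2 * j + 3) * κ - 2 * τ - 1 + (2 * j + 5) * ε) =
              NN i ^ (κ + ε) * NN i ^ ε *
              NN i ^ (j * κ - τ + (j + 1) * ε + ((j + 1) * κ - τ + (j + 1) * ε) - (1 - κ - ε)) := by
            rw [← Real.rpow_add hNpos, ← Real.rpow_add hNpos]
            congr 1
            ring
          rw [this]
          ring
        rw [e6]
        refine mul_le_mul_of_nonneg_left ?_ (by norm_num)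
        apply NN_rpow_mono
        have hj0 : (0:ℝ) ≤ j := Nat.cast_nonneg j
        nlinarith [mul_nonneg hj0 hε.le]
      refine le_trans (add_le_add e1 e2) ?_
      rw [← add_mul]
      exact habs)
  filter_upwards [hbc, ae_restrict_mem measurableSet_Ioc] with a ha hamem
  refine ⟨add_countable hS a A, fun i => tr (fun l => (b i l : ℝ)) (L i) a (F i),
    fun i => L i * c i, ?_⟩
  filter_upwards [ha, hF, hY'] with i hai hFi hYi
  obtain ⟨hn, hD, hl1, hen, hc, hrel⟩ := hFi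
  obtain ⟨hb1, hb2, hG0, hb3, hL1, hL2, hG1, hhs⟩ := hYi
  have hNpos := NN_pos i
  refine ⟨hn.tr _ _ _, ?_, ?_, ?_, ?_, ?_⟩
  · refine (disc_tr hn hD _ _ _).mono ?_
    refine (mul_le_mul_of_nonneg_right hL2 (NN_rpow_pos i _).le).trans ?_
    rw [← Real.rpow_add hNpos]
    apply le_of_eq
    congr 1
    push_cast
    ring
  · refine (l1_tr hn _ _ _).trans ?_
    refine (mul_le_mul hL2 hl1 (l1_nonneg _) (NN_rpow_pos i _).le).trans ?_
    rw [← Real.rpow_add hNpos]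
    apply le_of_eq
    congr 1
    push_cast
    ring
  · have := (ENNReal.ofReal_le_ofReal_iff (NN_rpow_pos i _).le).1 hai
    refine this.trans (le_of_eq ?_)
    congr 1
    push_cast
    ring
  · refine le_trans (le_of_eq ?_) (mul_le_mul hL1 hc (NN_rpow_pos i _).le (by positivity))
    rw [← Real.rpow_add hNpos]
    congr 1
    push_cast
    ring
  · refine (rel_tr hrel hb1 hb2 (hp.le.trans hamem.1.le) hamem.2).mono ?_
    have hq : 0 < q := hp.trans_le hpq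
    have : q * (2 * NN i) ≤ K * q * NN i := by
      have := mul_le_mul_of_nonneg_right hK (mul_pos hq hNpos).le
      linarith
    linarith

lemma toE {κ τ ε : ℝ} {k : ℕ} {S : Set ℝ} {lo hi : ℝ}
    (h : StR κ τ ε k S lo hi) : StE τ (2 - (k + 1) * κ + τ + (5 * k + 6) * ε) S lo hi := by
  obtain ⟨hS, F, c, hF⟩ := h
  refine ⟨hS, ?_⟩
  filter_upwards [hF] with i hFi
  obtain ⟨hn, hD, hl1, hen, hc, hrel⟩ := hFi
  have hc0 : 0 < c i := (NN_rpow_pos i _).trans_le hc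
  refine (vol_ex_le hn hrel hc0).trans (ENNReal.ofReal_le_ofReal ?_)
  have hNpos := NN_pos i
  have h1 : (NN i ^ (-τ - 1 + (k + 1) * κ - (k + 1) * ε)) ^ 2 ≤ c i ^ 2 :=
    pow_le_pow_left₀ (NN_rpow_pos i _).le hc 2
  refine (div_le_div₀ (NN_rpow_pos i _).le hen (by positivity) h1).trans ?_
  rw [← Real.rpow_natCast (NN i ^ (-τ - 1 + (k + 1) * κ - (k + 1) * ε)),
    ← Real.rpow_mul hNpos.le, ← Real.rpow_sub hNpos]
  apply le_of_eq
  congr 1
  push_cast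
  ring

lemma stepE {A : Set ℕ} {K : ℝ} (hA : PairSet K A) {τ θ θ' : ℝ} (hθ : 2 * θ - 1 < θ')
    {S : Set ℝ} {lo hi : ℝ} (h : StE τ θ S lo hi) {p q : ℝ} (hp : 0 < p) (hpq : p ≤ q) :
    ∀ᵐ a ∂(volume.restrict (Ioc p q)), StE τ θ' (add S a A) (lo + K * q) hi := by
  obtain ⟨hS, hE⟩ := h
  choose! b hb b' hb' hd hB using hA
  have hbc := bc (μ := volume.restrict (Ioc p q))
    (fun i a => pc (Ex S (NN i ^ (-τ)) (lo * NN i) (hi * NN i))
      (a * ((b (NN i) : ℝ) - b' (NN i))))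
    hθ (by
      filter_upwards [hE] with i hEi
      have hN1 := NN_one_le i
      refine ⟨(meas_pc (meas_ex hS _ _ _) _).aemeasurable, ?_⟩
      have h1 := hd _ hN1
      have hne : (b (NN i) : ℝ) - b' (NN i) ≠ 0 := by linarith
      refine (lint_pc_le (meas_ex hS _ _ _) hne p q).trans ?_
      have h2 : |((b (NN i) : ℝ) - b' (NN i))⁻¹| ≤ NN i ^ (-1 : ℝ) := by
        rw [abs_inv, Real.rpow_neg_one]
        apply inv_anti₀ (NN_pos i)
        rw [abs_sub_comm]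
        exact h1.trans (le_abs_self _)
      calc ENNReal.ofReal |((b (NN i) : ℝ) - b' (NN i))⁻¹| *
            volume (Ex S (NN i ^ (-τ)) (lo * NN i) (hi * NN i)) ^ 2
          ≤ ENNReal.ofReal (NN i ^ (-1 : ℝ)) * ENNReal.ofReal (NN i ^ θ) ^ 2 := by
            gcongr
        _ = ENNReal.ofReal (NN i ^ (2 * θ - 1)) := by
            rw [← ENNReal.ofReal_pow (NN_rpow_pos i _).le,
              ← ENNReal.ofReal_mul (NN_rpow_pos i _).le,
              ← Real.rpow_natCast (NN i ^ θ), ← Real.rpow_mul (NN_pos i).le,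
              ← Real.rpow_add (NN_pos i)]
            congr 2
            push_cast
            ring)
  filter_upwards [hbc, ae_restrict_mem measurableSet_Ioc] with a ha hamem
  refine ⟨add_countable hS a A, ?_⟩
  filter_upwards [ha] with i hai
  refine le_trans ?_ hai
  have hN1 := NN_one_le i
  have h1 := hd _ hN1
  have h2 := hB _ hN1
  have h3 : (lo + K * q) * NN i = lo * NN i + q * (K * NN i) := by ring
  rw [h3]
  exact vol_ex_add_le (hb _ hN1) (hb' _ hN1) (hp.le.trans hamem.1.le) hamem.2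
    (by linarith [NN_pos i]) h2

/-- final conclusion at all large scales -/
def Fin' (τ : ℝ) (S : Set ℝ) (lo hi : ℝ) : Prop :=
  ∀ᶠ i : ℕ in atTop, ∀ M ∈ Icc (lo * NN i) (hi * NN i), Hit S (2 * NN i ^ (-τ)) M

lemma finE {τ θ : ℝ} (hτ : 0 ≤ τ) (hθ : θ < -τ) {S : Set ℝ} {lo hi : ℝ}
    (h : StE τ θ S lo hi) : Fin' τ S (lo + 1) hi := by
  obtain ⟨hS, hE⟩ := h
  filter_upwards [hE, absorb' 2 hθ] with i hEi h2 M hM
  by_contra hcon
  have hN1 := NN_one_le i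
  have hH0 := NN_rpow_pos i (-τ)
  have hH1 : NN i ^ (-τ) ≤ NN i := by
    have := NN_rpow_mono i (show -τ ≤ 1 by linarith)
    simpa using this
  have hsub : Ioc (M - NN i ^ (-τ)) M ⊆ Ex S (NN i ^ (-τ)) (lo * NN i) (hi * NN i) := by
    intro M' hM'
    refine ⟨⟨?_, hM'.2.trans hM.2⟩, ?_⟩
    · have := hM.1
      have := hM'.1
      linarith
    · rintro ⟨σ, hσ, h3, h4⟩
      exact hcon ⟨σ, hσ, by linarith [hM'.1], h4.trans hM'.2⟩
  have h3 := (measure_mono hsub).trans hEi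
  rw [Real.volume_Ioc] at h3
  have h4 := (ENNReal.ofReal_le_ofReal_iff (NN_rpow_pos i _).le).1 h3
  have := NN_rpow_pos i θ
  linarith

end U131.MW
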