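import Pool.Agent.U131.MW.F

open MeasureTheory Set Filter
open scoped ENNReal Topology

namespace U131.MW

lemma startR {k : ℕ} (hk : 1 ≤ k) {A : Set ℕ} (hA : GapSet k A) {τ ε : ℝ} (hτ : 0 ≤ τ)
    (hε : 0 < ε) {p q : ℝ} (hp : 0 < p) (hq : p ≤ q)
    {hi : ℝ} (hhi : q ≤ hi) {a : ℝ} (ha : a ∈ Ioc p q) :
    StR (1 / (k : ℝ)) τ ε 0 (add {0} a A) q hi := by
  obtain ⟨C, hC1, hC⟩ := gap_pos hA
  refine ⟨add_countable (Set.countable_singleton 0) a A, ?_⟩
  set κ := 1 / (k : ℝ) with hκ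
  have hκ1 : κ ≤ 1 := kinv_le hk
  have hκ0 : 0 < κ := kinv_pos hk
  have ha0 : 0 < a := hp.trans ha.1
  have hq0 : 0 < q := hp.trans_le hq
  have hhi0 : 0 < hi := hq0.trans_le hhi
  have hC0 : 0 < C := by linarith
  set cH : ℝ := q * C * (hi / p) ^ (1 - κ) + 1 with hcH
  have hcH1 : 1 ≤ cH := by
    have : 0 ≤ q * C * (hi / p) ^ (1 - κ) := by positivity
    linarith
  have hcH0 : 0 < cH := by linarith
  let H0 : ℕ → ℝ := fun i => cH * NN i ^ (1 - κ)
  let L : ℕ → ℕ := fun i => ⌊(hi - q) * NN i / H0 i⌋₊ + 1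
  have hH00 : ∀ i, 0 < H0 i := fun i => mul_pos hcH0 (NN_rpow_pos i _)
  have hHH : ∀ i, NN i ^ (-τ) ≤ NN i ^ (1 - κ) := fun i => NN_rpow_mono i (by linarith)
  have hHH0 : ∀ i, NN i ^ (-τ) ≤ H0 i := by
    intro i
    refine (hHH i).trans ?_
    have := NN_rpow_pos i (1 - κ)
    show NN i ^ (1 - κ) ≤ cH * NN i ^ (1 - κ)
    nlinarith
  have hpt : ∀ i l : ℕ, ∃ s : ℝ, l < L i → s ∈ add {0} a A ∧ q * NN i + l * H0 i ≤ s ∧
      s + NN i ^ (-τ) ≤ q * NN i + l * H0 i + H0 i := by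
    intro i l
    by_cases hl : l < L i
    · have hN1 := NN_one_le i
      have hl1 : l ≤ ⌊(hi - q) * NN i / H0 i⌋₊ := Nat.lt_succ_iff.1 hl
      have h0 : 0 ≤ (hi - q) * NN i / H0 i :=
        div_nonneg (mul_nonneg (by linarith) (NN_pos i).le) (hH00 i).le
      have hl2 : (l : ℝ) ≤ (hi - q) * NN i / H0 i :=
        (Nat.le_floor_iff h0).1 hl1
      have hl3 : (l : ℝ) * H0 i ≤ (hi - q) * NN i := by
        rwa [le_div_iff₀ (hH00 i)] at hl2
      have hlH : 0 ≤ (l : ℝ) * H0 i := mul_nonneg (Nat.cast_nonneg _) (hH00 i).le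
      have hx1 : q * NN i ≤ q * NN i + l * H0 i := by linarith
      have hx2 : q * NN i + l * H0 i ≤ hi * NN i := by linarith
      have hqN : q ≤ q * NN i := by nlinarith
      have hy1 : 1 ≤ (q * NN i + l * H0 i) / a := by
        rw [le_div_iff₀ ha0]
        linarith [ha.2]
      obtain ⟨n, hn, h1, h2⟩ := hC _ hy1
      refine ⟨a * n, fun _ => ⟨⟨0, rfl, n, hn, by ring⟩, ?_, ?_⟩⟩
      · have := mul_le_mul_of_nonneg_left h1 ha0.le
        rwa [mul_div_cancel₀ _ ha0.ne'] at this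
      · have h3 := mul_le_mul_of_nonneg_left h2 ha0.le
        rw [mul_add, mul_div_cancel₀ _ ha0.ne'] at h3
        have h4 : ((q * NN i + l * H0 i) / a) ^ (1 - κ) ≤ (hi / p * NN i) ^ (1 - κ) := by
          apply Real.rpow_le_rpow (by linarith) _ (by linarith)
          rw [div_mul_eq_mul_div]
          exact div_le_div₀ (by positivity [NN_pos i]) hx2 hp ha.1.le
        rw [Real.mul_rpow (by positivity) (NN_pos i).le] at h4
        have h5 : a * (C * ((q * NN i + l * H0 i) / a) ^ (1 - κ)) ≤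
            q * (C * ((hi / p) ^ (1 - κ) * NN i ^ (1 - κ))) := by
          apply mul_le_mul ha.2 _ (by positivity) hq0.le
          exact mul_le_mul_of_nonneg_left h4 hC0.le
        have h6 : H0 i = q * (C * ((hi / p) ^ (1 - κ) * NN i ^ (1 - κ))) + NN i ^ (1 - κ) := by
          show cH * NN i ^ (1 - κ) = _
          rw [hcH]
          ring
        have h7 := hHH i
        linarith
    · exact ⟨0, fun h => absurd h hl⟩
  choose s hs using hpt
  refine ⟨fun i => st (s i) (NN i ^ (-τ)) (q * NN i) (H0 i) (L i),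
    fun i => NN i ^ (-τ) / H0 i, ?_⟩
  filter_upwards [absorb' 2 (show -τ < -τ + ε by linarith),
    absorb' (2 * (hi - q + 1)) (show κ - τ < κ - τ + ε by linarith),
    absorb' cH (show -τ - ε < -τ by linarith)] with i h1 h2 h3
  have hN0 := NN_pos i
  have hN1 := NN_one_le i
  have hH := NN_rpow_pos i (-τ)
  have hLle : (L i : ℝ) ≤ (hi - q + 1) * NN i ^ κ := by
    have h0 : 0 ≤ (hi - q) * NN i / H0 i :=
      div_nonneg (mul_nonneg (by linarith) (NN_pos i).le) (hH00 i).le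
    have h4 : (L i : ℝ) ≤ (hi - q) * NN i / H0 i + 1 := by
      show ((⌊(hi - q) * NN i / H0 i⌋₊ + 1 : ℕ) : ℝ) ≤ _
      push_cast
      linarith [Nat.floor_le h0]
    have h5 : (hi - q) * NN i / H0 i ≤ (hi - q) * NN i ^ κ := by
      rw [div_le_iff₀ (hH00 i)]
      have h6 : NN i = NN i ^ κ * NN i ^ (1 - κ) := by
        rw [← Real.rpow_add hN0]
        simp
      have h7 : NN i ^ κ * NN i ^ (1 - κ) ≤ NN i ^ κ * H0 i := by
        apply mul_le_mul_of_nonneg_left _ (NN_rpow_pos i κ).le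
        show NN i ^ (1 - κ) ≤ cH * NN i ^ (1 - κ)
        have := NN_rpow_pos i (1 - κ)
        nlinarith
      rw [← h6] at h7
      have := mul_le_mul_of_nonneg_left h7 (show 0 ≤ hi - q by linarith)
      linarith
    have h8 : 1 ≤ NN i ^ κ := Real.one_le_rpow hN1 hκ0.le
    linarith
  have hl1 : (L i : ℝ) * (2 * NN i ^ (-τ)) ≤ NN i ^ (κ - τ + ε) := by
    have h4 : (L i : ℝ) * (2 * NN i ^ (-τ)) ≤
        (hi - q + 1) * NN i ^ κ * (2 * NN i ^ (-τ)) :=
      mul_le_mul_of_nonneg_right hLle (by positivity)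
    have h5 : (hi - q + 1) * NN i ^ κ * (2 * NN i ^ (-τ)) =
        2 * (hi - q + 1) * NN i ^ (κ - τ) := by
      rw [show κ - τ = κ + (-τ) by ring, Real.rpow_add hN0]
      ring
    linarith
  have hs1 : ∀ l < L i, q * NN i + l * H0 i ≤ s i l := fun l hl => (hs i l hl).2.1
  have hs2 : ∀ l < L i, s i l + NN i ^ (-τ) ≤ q * NN i + l * H0 i + H0 i :=
    fun l hl => (hs i l hl).2.2
  refine ⟨st_nice _ _ _ _ _, ?_, ?_, ?_, ?_, ?_⟩
  · refine (st_disc hH.le (hH00 i) hs1 hs2).mono (h1.trans (le_of_eq ?_))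
    congr 1
    push_cast
    ring
  · refine (st_l1 hH.le (hH00 i)).trans (hl1.trans (le_of_eq ?_))
    congr 1
    push_cast
    ring
  · refine (st_en hH.le (hH00 i) (hHH0 i) hs1 hs2).trans (hl1.trans ?_)
    apply NN_rpow_mono
    push_cast
    linarith
  · rw [le_div_iff₀ (hH00 i)]
    show NN i ^ (-τ - 1 + ((0:ℕ) + 1) * κ - ((0:ℕ) + 1) * ε) * (cH * NN i ^ (1 - κ)) ≤ _
    refine le_trans (le_of_eq ?_) h3
    have : NN i ^ (-τ - ε) =
        NN i ^ (-τ - 1 + ((0:ℕ) + 1) * κ - ((0:ℕ) + 1) * ε) * NN i ^ (1 - κ) := by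
      rw [← Real.rpow_add hN0]
      congr 1
      push_cast
      ring
    rw [this]
    ring
  · refine st_rel (hH00 i) hs1 hs2 (fun l hl => (hs i l hl).1) ?_
    have h0 : (hi - q) * NN i / H0 i < L i := by
      show _ < ((⌊(hi - q) * NN i / H0 i⌋₊ + 1 : ℕ) : ℝ)
      push_cast
      exact Nat.lt_floor_add_one _
    rw [div_lt_iff₀ (hH00 i)] at h0
    linarith

end U131.MW
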