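import Mathlib

open MeasureTheory Set Filter
open scoped ENNReal Topology

namespace U131.MW

/-- iterated almost-everywhere statement on `(p,q]^n` -/
def IterAE (μ : Measure ℝ) : (n : ℕ) → ((Fin n → ℝ) → Prop) → Prop
  | 0, P => P Fin.elim0
  | n + 1, P => ∀ᵐ x ∂μ, IterAE μ n (fun v => P (Fin.cons x v))

lemma IterAE.mono {μ : Measure ℝ} : ∀ {n : ℕ} {P Q : (Fin n → ℝ) → Prop}, (∀ v, P v → Q v) →
    IterAE μ n P → IterAE μ n Q
  | 0, P, Q, h, hP => h _ hP
  | n + 1, P, Q, h, hP => by
    unfold IterAE at hP ⊢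
    filter_upwards [hP] with x hx
    exact IterAE.mono (fun v hv => h _ hv) hx

lemma iter_prod {μ : Measure ℝ} [SigmaFinite μ] : ∀ {n : ℕ} {P : (Fin n → ℝ) → Prop},
    MeasurableSet {v | P v} → IterAE μ n P → ∀ᵐ v ∂(Measure.pi fun _ : Fin n => μ), P v
  | 0, P, _, h => by
    refine Eventually.of_forall fun v => ?_
    have : v = Fin.elim0 := Subsingleton.elim _ _
    rw [this]
    exact h
  | n + 1, P, hm, h => by
    have hmp := measurePreserving_piFinSuccAbove (fun _ : Fin (n + 1) => μ) 0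
    set e := MeasurableEquiv.piFinSuccAbove (fun _ : Fin (n + 1) => ℝ) 0 with he
    have hcons : ∀ (x : ℝ) (v : Fin n → ℝ), e.symm (x, v) = Fin.cons x v := by
      intro x v
      simp [he, MeasurableEquiv.piFinSuccAbove, Fin.insertNth_zero']
      rfl
    have hm' : MeasurableSet {z : ℝ × (Fin n → ℝ) | P (Fin.cons z.1 z.2)} := by
      have : {z : ℝ × (Fin n → ℝ) | P (Fin.cons z.1 z.2)} = e.symm ⁻¹' {v | P v} := by
        ext ⟨x, v⟩
        simp [hcons]
      rw [this]
      exact e.symm.measurable hm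
    have h1 : ∀ᵐ z ∂(μ.prod (Measure.pi fun _ : Fin n => μ)), P (Fin.cons z.1 z.2) := by
      rw [Measure.ae_prod_iff_ae_ae hm']
      have h2 : ∀ᵐ x ∂μ, IterAE μ n (fun v => P (Fin.cons x v)) := h
      filter_upwards [h2] with x hx
      refine iter_prod ?_ hx
      have : {v : Fin n → ℝ | P (Fin.cons x v)} =
          (fun v : Fin n → ℝ => (x, v)) ⁻¹' {z : ℝ × (Fin n → ℝ) | P (Fin.cons z.1 z.2)} := rfl
      rw [this]
      exact measurable_prodMk_left hm'
    have h3 := hmp.quasiMeasurePreserving.ae h1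
    filter_upwards [h3] with v hv
    have h4 : Fin.cons (e v).1 (e v).2 = v := by
      rw [← hcons]
      simp
    rwa [h4] at hv

end U131.MW
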