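import Pool.Agent.U131.MW.G
import Pool.Agent.U131.MW.H

open MeasureTheory Set Filter
open scoped ENNReal Topology

namespace U131.MW

/-- all sums `σ + Σ v_i a_i` with `σ ∈ S` and `a_i ∈ A i` -/
def Sums (S : Set ℝ) (A : ℕ → Set ℕ) (n : ℕ) (v : Fin n → ℝ) : Set ℝ :=
  {x | ∃ σ ∈ S, ∃ a : Fin n → ℕ, (∀ i : Fin n, a i ∈ A i) ∧ x = σ + ∑ i, v i * a i}

lemma sums_zero (S : Set ℝ) (A : ℕ → Set ℕ) (v : Fin 0 → ℝ) : S ⊆ Sums S A 0 v := by
  intro x hx
  exact ⟨x, hx, Fin.elim0, fun i => i.elim0, by simp⟩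

lemma sums_cons (S : Set ℝ) (A : ℕ → Set ℕ) (n : ℕ) (x : ℝ) (v : Fin n → ℝ) :
    Sums (add S x (A 0)) (fun i => A (i + 1)) n v ⊆ Sums S A (n + 1) (Fin.cons x v) := by
  rintro y ⟨σ, ⟨σ', hσ', m, hm, rfl⟩, a, ha, rfl⟩
  refine ⟨σ', hσ', Fin.cons m a, ?_, ?_⟩
  · intro i
    refine Fin.cases ?_ (fun j => ?_) i
    · simpa using hm
    · simpa using ha j
  · rw [Fin.sum_univ_succ]
    simp [add_assoc]

lemma Fin'.mono {τ : ℝ} {S S' : Set ℝ} {lo lo' hi : ℝ} (h : Fin' τ S lo hi) (hS : S ⊆ S')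
    (hlo : lo ≤ lo') : Fin' τ S' lo' hi := by
  filter_upwards [h] with i hi' M hM
  have h1 : lo * NN i ≤ lo' * NN i := mul_le_mul_of_nonneg_right hlo (NN_pos i).le
  obtain ⟨σ, hσ, h2⟩ := hi' M ⟨h1.trans hM.1, hM.2⟩
  exact ⟨σ, hS hσ, h2⟩

lemma recE {τ hi K p q : ℝ} (hτ : 0 ≤ τ) (hp : 0 < p) (hpq : p ≤ q) :
    ∀ (n : ℕ) (A : ℕ → Set ℕ) (S : Set ℝ) (θ lo : ℝ),
    (∀ i < n, PairSet K (A i)) → StE τ θ S lo hi → 1 + τ < 2 ^ n * (1 - θ) →
    IterAE (volume.restrict (Ioc p q)) n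
      (fun v => Fin' τ (Sums S A n v) (lo + n * (K * q) + 1) hi)
  | 0, A, S, θ, lo, _, h, hθ => by
    have h1 := finE hτ (show θ < -τ by linarith) h
    exact h1.mono (sums_zero S A _) (by simp)
  | n + 1, A, S, θ, lo, hA, h, hθ => by
    set θ' : ℝ := 2 * θ - 1 + (2 ^ (n + 1) * (1 - θ) - (1 + τ)) / 2 ^ (n + 1) with hθ'
    have h2 : (0:ℝ) < 2 ^ (n + 1) := by positivity
    have h3 : 2 * θ - 1 < θ' := by
      have : 0 < (2 ^ (n + 1) * (1 - θ) - (1 + τ)) / 2 ^ (n + 1) := div_pos (by linarith) h2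
      linarith
    have h4 : 1 + τ < 2 ^ n * (1 - θ') := by
      have e : 2 ^ n * (1 - θ') =
          2 ^ (n + 1) * (1 - θ) - (2 ^ (n + 1) * (1 - θ) - (1 + τ)) / 2 := by
        rw [hθ']
        have : (2:ℝ) ^ (n + 1) = 2 * 2 ^ n := by ring
        have h5 : (2:ℝ) ^ n ≠ 0 := by positivity
        rw [this]
        field_simp
        ring
      rw [e]
      linarith
    have h5 := stepE (hA 0 (Nat.succ_pos n)) h3 h hp hpq
    unfold IterAE
    filter_upwards [h5] with x hx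
    have h6 := recE hτ hp hpq n (fun i => A (i + 1)) (add S x (A 0)) θ' (lo + K * q)
      (fun i hi => hA (i + 1) (by omega)) hx h4
    refine h6.mono fun v hv => ?_
    refine hv.mono (sums_cons S A n x v) ?_
    push_cast
    linarith

lemma recR {k J t : ℕ} (hk : 1 ≤ k) {τ hi K p q ε : ℝ} (hτ : 0 ≤ τ) (hp : 0 < p) (hpq : p ≤ q)
    (hε : 0 < ε) (hεk : ε ≤ 1 / (k : ℝ)) (hK : 2 ≤ K) (hJ : (J : ℝ) ≤ k * (1 + τ))
    (hfin : 1 + τ < 2 ^ t * (1 - (2 - (J + 1) * (1 / (k : ℝ)) + τ + (5 * J + 6) * ε))) :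
    ∀ (r n j : ℕ) (A : ℕ → Set ℕ) (S : Set ℝ) (lo : ℝ), n = r + t → j + r = J →
    (∀ i < r, GapSet k (A i)) → (∀ i < n, PairSet K (A i)) → StR (1 / (k : ℝ)) τ ε j S lo hi →
    IterAE (volume.restrict (Ioc p q)) n
      (fun v => Fin' τ (Sums S A n v) (lo + n * (K * q) + 1) hi)
  | 0, n, j, A, S, lo, hn, hj, hG, hA, h => by
    have hnt : n = t := by omega
    have hjk : j = J := by omega
    subst hnt
    subst hjk
    exact recE hτ hp hpq n A S _ lo hA (toE h) hfin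
  | r + 1, n, j, A, S, lo, hn, hj, hG, hA, h => by
    obtain ⟨m, rfl⟩ : ∃ m, n = m + 1 := ⟨r + t, by omega⟩
    have hk0 : (0:ℝ) < k := by exact_mod_cast hk
    have hjJ : ((j : ℝ) + 1) * (1 / (k : ℝ)) ≤ 1 + τ := by
      have h1 : ((j : ℝ) + 1) ≤ J := by exact_mod_cast (show j + 1 ≤ J by omega)
      rw [mul_one_div, div_le_iff₀ hk0]
      linarith
    have h5 := stepR hk (hG 0 (Nat.succ_pos r)) hτ hε hεk hjJ h hp hpq hK
    unfold IterAE
    filter_upwards [h5] with x hx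
    have h6 := recR hk hτ hp hpq hε hεk hK hJ hfin r m (j + 1) (fun i => A (i + 1))
      (add S x (A 0)) (lo + K * q) (by omega) (by omega)
      (fun i hi => hG (i + 1) (by omega)) (fun i hi => hA (i + 1) (by omega)) hx
    refine h6.mono fun v hv => ?_
    refine hv.mono (sums_cons S A m x v) ?_
    push_cast
    linarith

/-- all large scales, rational targets -/
def PR (τ lo hi : ℝ) (A : ℕ → Set ℕ) (n : ℕ) (v : Fin n → ℝ) : Prop :=
  ∃ i0 : ℕ, ∀ i : ℕ, i0 ≤ i → ∀ M : ℚ, (M : ℝ) ∈ Icc (lo * NN i) (hi * NN i) →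
    ∃ a : Fin n → ℕ, (∀ i : Fin n, a i ∈ A i) ∧ (M : ℝ) - 2 * NN i ^ (-τ) < ∑ j, v j * a j ∧
      ∑ j, v j * a j ≤ M

lemma meas_PR (τ lo hi : ℝ) (A : ℕ → Set ℕ) (n : ℕ) : MeasurableSet {v | PR τ lo hi A n v} := by
  unfold PR
  simp only [setOf_exists, setOf_forall]
  refine MeasurableSet.iUnion fun i0 => MeasurableSet.iInter fun i => MeasurableSet.iInter fun _ =>
    MeasurableSet.iInter fun M => MeasurableSet.iInter fun _ => MeasurableSet.iUnion fun a => ?_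
  have hm : Measurable fun v : Fin n → ℝ => ∑ j, v j * (a j : ℝ) := by fun_prop
  refine (MeasurableSet.const _).inter ((measurableSet_lt measurable_const hm).inter
    (measurableSet_le hm measurable_const))

/-- statement on a box -/
lemma box {k J t : ℕ} (hk : 1 ≤ k) {τ : ℝ} (hτ : 0 ≤ τ) (hJ : (J : ℝ) ≤ k * (1 + τ))
    (ht : 1 + τ < 2 ^ t * ((J + 1) / (k : ℝ) - 1 - τ)) (A : ℕ → Set ℕ)
    (hG : ∀ i ≤ J, GapSet k (A i)) (hP : ∀ i < J + 1 + t, ∃ K, PairSet K (A i)) {p q : ℝ}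
    (hp : 0 < p) (hpq : p ≤ q) :
    ∃ lo : ℝ, 0 < lo ∧ ∀ᵐ v ∂(Measure.pi fun _ : Fin (J + 1 + t) => volume.restrict (Ioc p q)),
      PR τ lo (2 * lo) A (J + 1 + t) v := by
  have hq : 0 < q := hp.trans_le hpq
  have hk0 : (0:ℝ) < k := by exact_mod_cast hk
  -- a common constant `K`
  obtain ⟨K, hK2, hK⟩ : ∃ K : ℝ, 2 ≤ K ∧ ∀ i < J + 1 + t, PairSet K (A i) := by
    choose! K hK using hP
    refine ⟨2 + ∑ i ∈ Finset.range (J + 1 + t), |K i|, ?_, fun i hi => ?_⟩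
    · have : 0 ≤ ∑ i ∈ Finset.range (J + 1 + t), |K i| := Finset.sum_nonneg fun _ _ => abs_nonneg _
      linarith
    · refine (hK i hi).mono ?_
      have h1 := Finset.single_le_sum (f := fun i => |K i|) (fun _ _ => abs_nonneg _)
        (Finset.mem_range.2 hi)
      have h2 := le_abs_self (K i)
      linarith
  -- the small parameter
  set gap : ℝ := 2 ^ t * ((J + 1) / (k : ℝ) - 1 - τ) - (1 + τ) with hgap
  have hgap0 : 0 < gap := by linarith
  have h2t : (0:ℝ) < 2 ^ t := by positivity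
  set ε : ℝ := min (1 / (k : ℝ)) (gap / (2 * (2 ^ t * (5 * J + 6)))) with hε
  have hε0 : 0 < ε := lt_min (by positivity) (by positivity)
  have hεk : ε ≤ 1 / (k : ℝ) := min_le_left _ _
  have hfin : 1 + τ < 2 ^ t * (1 - (2 - (J + 1) * (1 / (k : ℝ)) + τ + (5 * J + 6) * ε)) := by
    have h1 : ε ≤ gap / (2 * (2 ^ t * (5 * J + 6))) := min_le_right _ _
    rw [le_div_iff₀ (by positivity)] at h1
    have h2 : 2 ^ t * (1 - (2 - (J + 1) * (1 / (k : ℝ)) + τ + (5 * J + 6) * ε)) =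
        2 ^ t * ((J + 1) / (k : ℝ) - 1 - τ) - ε * (2 ^ t * (5 * J + 6)) := by ring
    rw [h2]
    nlinarith
  set n := J + t with hn
  set lo : ℝ := q + n * (K * q) + 1 with hlo
  have hlo0 : 0 < lo := by positivity
  have hqlo : q ≤ 2 * lo := by
    have : 0 ≤ (n : ℝ) * (K * q) := by positivity
    linarith
  refine ⟨lo, hlo0, ?_⟩
  have hnn : J + 1 + t = n + 1 := by omega
  rw [hnn]
  refine iter_prod (meas_PR _ _ _ _ _) ?_
  unfold IterAE
  filter_upwards [ae_restrict_mem measurableSet_Ioc] with a ha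
  have h1 := startR (hi := 2 * lo) hk (hG 0 (Nat.zero_le J)) hτ hε0 hp hpq hqlo ha
  have h2 := recR hk hτ hp hpq hε0 hεk hK2 hJ hfin J n 0 (fun i => A (i + 1)) _ q hn (by omega)
    (fun i hi => hG (i + 1) (by omega)) (fun i hi => hK (i + 1) (by omega)) h1
  refine h2.mono fun v hv => ?_
  have hv' : Fin' τ (Sums {0} A (n + 1) (Fin.cons a v)) lo (2 * lo) :=
    hv.mono (sums_cons {0} A n a v) (by rw [hlo])
  obtain ⟨i0, hi0⟩ := eventually_atTop.1 hv'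
  refine ⟨i0, fun i hi M hM => ?_⟩
  obtain ⟨σ, ⟨s, hs, b, hb, rfl⟩, h3, h4⟩ := hi0 i hi M hM
  rw [mem_singleton_iff] at hs
  subst hs
  rw [zero_add] at h3 h4
  exact ⟨b, hb, h3, h4⟩

end U131.MW
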