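import Pool.Agent.U131.MW.I

open MeasureTheory Set Filter
open scoped ENNReal Topology

namespace U131.MW

/-- an element in `[y, R y]` for every `y ≥ 1` -/
def RatioSet (A : Set ℕ) : Prop :=
  ∃ R : ℝ, ∀ y : ℝ, 1 ≤ y → ∃ a ∈ A, y ≤ (a : ℝ) ∧ (a : ℝ) ≤ R * y

lemma RatioSet.pair {A : Set ℕ} (h : RatioSet A) : ∃ K, PairSet K A := by
  obtain ⟨R, hR⟩ := h
  have hR1 : 1 ≤ R := by
    obtain ⟨a, _, h1, h2⟩ := hR 1 le_rfl
    linarith
  refine ⟨R * (R + 1), fun N hN => ?_⟩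
  obtain ⟨b, hb, h1, h2⟩ := hR N hN
  obtain ⟨b', hb', h3, h4⟩ := hR ((R + 1) * N) (by nlinarith)
  exact ⟨b, hb, b', hb', by linarith, by linarith⟩

lemma GapSet.ratio {k : ℕ} {A : Set ℕ} (h : GapSet k A) : RatioSet A := by
  obtain ⟨C, hC1, hC⟩ := gap_pos h
  refine ⟨1 + C, fun y hy => ?_⟩
  obtain ⟨a, ha, h1, h2⟩ := hC y hy
  refine ⟨a, ha, h1, h2.trans ?_⟩
  have h3 : y ^ (1 - 1 / (k : ℝ)) ≤ y := by
    have h5 : (0:ℝ) ≤ 1 / (k : ℝ) := by positivity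
    have h4 := Real.rpow_le_rpow_of_exponent_le hy (show 1 - 1 / (k : ℝ) ≤ 1 by linarith)
    simpa using h4
  nlinarith

/-- from all large scales to all large reals -/
lemma scales {τ τ' lo : ℝ} (hlo : 0 < lo) (hτ : τ < τ') (A : ℕ → Set ℕ) (n : ℕ) (v : Fin n → ℝ)
    (hτ0 : 0 ≤ τ) (h : PR τ' lo (2 * lo) A n v) :
    ∀ᶠ M : ℝ in atTop, ∃ a : Fin n → ℕ, (∀ i : Fin n, a i ∈ A i) ∧
      |∑ j, v j * a j - M| < M ^ (-τ) := by
  obtain ⟨i0, hi0⟩ := h
  have hlim : Tendsto (fun M : ℝ => M ^ (τ' - τ)) atTop atTop :=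
    tendsto_rpow_atTop (by linarith)
  filter_upwards [hlim.eventually_gt_atTop (3 * (2 * lo) ^ τ'), eventually_ge_atTop (lo * 2 ^ i0),
    eventually_gt_atTop (0:ℝ), eventually_ge_atTop (1 + lo), eventually_ge_atTop (lo + 3 * lo)]
    with M h1 h2 h3 h4 h4'
  -- choose the scale for `M - 1 < M' ≤ M`
  have hM1 : 1 ≤ M / lo := by
    rw [le_div_iff₀ hlo]
    linarith
  obtain ⟨i, hi1, hi2⟩ := exists_nat_pow_near hM1 (show (1:ℝ) < 2 by norm_num)
  rw [le_div_iff₀ hlo] at hi1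
  rw [div_lt_iff₀ hlo] at hi2
  have hN : NN i = 2 ^ i := rfl
  have hi0i : i0 ≤ i := by
    by_contra hcon
    push Not at hcon
    have : (2:ℝ) ^ (i + 1) ≤ 2 ^ i0 := pow_le_pow_right₀ (by norm_num) hcon
    nlinarith
  have hMN : M < 2 * lo * NN i := by
    rw [hN]
    rw [pow_succ] at hi2
    linarith
  have hNM : lo * NN i ≤ M := by
    rw [hN]
    linarith
  have hNpos := NN_pos i
  have hH := NN_rpow_pos i (-τ')
  -- a rational target slightly above `M`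
  obtain ⟨r, hr1, hr2⟩ := exists_rat_btwn
    (show M < min (M + NN i ^ (-τ')) (2 * lo * NN i) from
      lt_min (by linarith) hMN)
  have hr3 : (r : ℝ) < M + NN i ^ (-τ') := hr2.trans_le (min_le_left _ _)
  have hr4 : (r : ℝ) < 2 * lo * NN i := hr2.trans_le (min_le_right _ _)
  obtain ⟨a, ha, h5, h6⟩ := hi0 i hi0i r ⟨by linarith, hr4.le⟩
  refine ⟨a, ha, ?_⟩
  have h7 : 3 * NN i ^ (-τ') < M ^ (-τ) := by
    have h8 : M ^ (-τ) = M ^ (τ' - τ) * M ^ (-τ') := by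
      rw [← Real.rpow_add h3]
      congr 1
      ring
    have h9 : NN i ^ (-τ') ≤ (2 * lo) ^ τ' * M ^ (-τ') := by
      have h10 : (2 * lo * NN i) ^ (-τ') ≤ M ^ (-τ') :=
        Real.rpow_le_rpow_of_nonpos h3 hMN.le (by linarith)
      rw [Real.mul_rpow (by positivity) hNpos.le] at h10
      have h11 : (2 * lo) ^ τ' * (2 * lo) ^ (-τ') = 1 := by
        rw [← Real.rpow_add (by positivity)]
        simp
      have h12 : 0 < (2 * lo) ^ τ' := by positivity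
      calc NN i ^ (-τ') = (2 * lo) ^ τ' * ((2 * lo) ^ (-τ') * NN i ^ (-τ')) := by
            rw [← mul_assoc, h11, one_mul]
        _ ≤ _ := mul_le_mul_of_nonneg_left h10 h12.le
    rw [h8]
    have h13 : 0 < M ^ (-τ') := by positivity
    calc 3 * NN i ^ (-τ') ≤ 3 * ((2 * lo) ^ τ' * M ^ (-τ')) := by linarith
      _ = 3 * (2 * lo) ^ τ' * M ^ (-τ') := by ring
      _ < _ := mul_lt_mul_of_pos_right h1 h13
  rw [abs_lt]
  constructor <;> linarith

/-- **Main theorem**, first form -/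
theorem metric1 {k J t : ℕ} (hk : 1 ≤ k) {τ : ℝ} (hτ : 0 ≤ τ) (hJ : (J : ℝ) ≤ k * (1 + τ))
    (ht : 1 + τ < 2 ^ t * ((J + 1) / (k : ℝ) - 1 - τ)) (A : Fin (J + 1 + t) → Set ℕ)
    (hG : ∀ i : Fin (J + 1 + t), i.val ≤ J → GapSet k (A i))
    (hR : ∀ i : Fin (J + 1 + t), J < i.val → RatioSet (A i)) :
    ∀ᵐ α : Fin (J + 1 + t) → ℝ, (∀ i, 0 < α i) → ∀ᶠ M : ℝ in atTop,
      ∃ a : Fin (J + 1 + t) → ℕ, (∀ i, a i ∈ A i) ∧ |∑ i, α i * a i - M| < M ^ (-τ) := by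
  -- increase `τ`
  have hk0 : (0:ℝ) < k := by exact_mod_cast hk
  set gap : ℝ := 2 ^ t * ((J + 1) / (k : ℝ) - 1 - τ) - (1 + τ) with hgap
  have hgap0 : 0 < gap := by linarith
  have h2t : (0:ℝ) < 2 ^ t := by positivity
  set δ : ℝ := gap / (2 * (1 + 2 ^ t)) with hδ
  have hδ0 : 0 < δ := by positivity
  have ht' : 1 + (τ + δ) < 2 ^ t * ((J + 1) / (k : ℝ) - 1 - (τ + δ)) := by
    have h1 : δ * (2 * (1 + 2 ^ t)) = gap := by
      rw [hδ]
      field_simp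
    nlinarith
  have hJ' : (J : ℝ) ≤ k * (1 + (τ + δ)) := by nlinarith
  let B : ℕ → Set ℕ := fun i => if h : i < J + 1 + t then A ⟨i, h⟩ else univ
  have hB : ∀ i : Fin (J + 1 + t), B i = A i := by
    intro i
    simp [B, i.isLt]
  have hBG : ∀ i ≤ J, GapSet k (B i) := by
    intro i hi
    have hlt : i < J + 1 + t := by omega
    have := hB ⟨i, hlt⟩
    simp only at this
    rw [this]
    exact hG _ hi
  have hBP : ∀ i < J + 1 + t, ∃ K, PairSet K (B i) := by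
    intro i hi
    rcases le_or_gt i J with h | h
    · exact (hBG i h).ratio.pair
    · have := hB ⟨i, hi⟩
      simp only at this
      rw [this]
      exact (hR _ h).pair
  -- boxes
  have hbox : ∀ n : ℕ, ∀ᵐ α : Fin (J + 1 + t) → ℝ, (∀ i, α i ∈ Ioc (1 / ((n:ℝ) + 1)) (n + 1)) →
      ∀ᶠ M : ℝ in atTop,
      ∃ a : Fin (J + 1 + t) → ℕ, (∀ i, a i ∈ A i) ∧ |∑ i, α i * a i - M| < M ^ (-τ) := by
    intro n
    have hn0 : (0:ℝ) < (n:ℝ) + 1 := by positivity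
    have hn1 : 1 / ((n:ℝ) + 1) ≤ n + 1 := by
      rw [div_le_iff₀ hn0]
      have : (0:ℝ) ≤ n := Nat.cast_nonneg n
      nlinarith
    obtain ⟨lo, hlo, hb⟩ := box hk (show 0 ≤ τ + δ by linarith) hJ' ht' B hBG hBP
      (show (0:ℝ) < 1 / ((n:ℝ) + 1) by positivity) hn1
    rw [← Measure.restrict_pi_pi, ae_restrict_iff' (MeasurableSet.univ_pi fun _ =>
      measurableSet_Ioc)] at hb
    filter_upwards [hb] with α hα hmem
    have h1 := hα (fun i _ => hmem i)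
    have h2 := scales hlo (show τ < τ + δ by linarith) B _ α hτ h1
    filter_upwards [h2] with M hM
    obtain ⟨a, ha, h3⟩ := hM
    exact ⟨a, fun i => by rw [← hB i]; exact ha i, h3⟩
  rw [← ae_all_iff] at hbox
  filter_upwards [hbox] with α hα hpos
  -- find a box containing `α`
  obtain ⟨n, hn⟩ : ∃ n : ℕ, ∀ i, α i ∈ Ioc (1 / ((n:ℝ) + 1)) (n + 1) := by
    obtain ⟨n, hn⟩ := exists_nat_gt (∑ i, (α i + (α i)⁻¹))
    refine ⟨n, fun i => ?_⟩
    have h1 : α i + (α i)⁻¹ ≤ ∑ i, (α i + (α i)⁻¹) :=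
      Finset.single_le_sum (f := fun i => α i + (α i)⁻¹)
        (fun j _ => (add_pos (hpos j) (inv_pos.2 (hpos j))).le) (Finset.mem_univ i)
    have h2 := hpos i
    have h3 := inv_pos.2 h2
    refine ⟨?_, by linarith⟩
    rw [one_div]
    have h4 : (α i)⁻¹ < (n:ℝ) + 1 := by linarith
    have h5 := inv_strictAnti₀ h3 h4
    simpa using h5
  exact hα n hn

/-- **Main theorem** -/
theorem metric {k J t : ℕ} (hk : 1 ≤ k) (hkJ : k ≤ J) (hJt : J < 2 ^ t) {τ : ℝ} (hτ : 0 ≤ τ)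
    (ht : 1 + τ < 2 ^ t * ((J + 1) / (k : ℝ) - 1 - τ)) (A : Fin (J + 1 + t) → Set ℕ)
    (hG : ∀ i : Fin (J + 1 + t), i.val ≤ J → GapSet k (A i))
    (hR : ∀ i : Fin (J + 1 + t), J < i.val → RatioSet (A i)) :
    ∀ᵐ α : Fin (J + 1 + t) → ℝ, (∀ i, 0 < α i) → ∀ᶠ M : ℝ in atTop,
      ∃ a : Fin (J + 1 + t) → ℕ, (∀ i, a i ∈ A i) ∧ |∑ i, α i * a i - M| < M ^ (-τ) := by
  have hk0 : (0:ℝ) < k := by exact_mod_cast hk
  rcases le_or_gt (J : ℝ) (k * (1 + τ)) with hJ | hJ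
  · exact metric1 hk hτ hJ ht A hG hR
  · set τ' : ℝ := J / k - 1 with hτ'
    have hkJ' : (k : ℝ) ≤ J := by exact_mod_cast hkJ
    have hJt' : (J : ℝ) < 2 ^ t := by exact_mod_cast hJt
    have h1 : 1 + τ < J / k := by
      rw [lt_div_iff₀ hk0]
      linarith
    have h2 : (k : ℝ) * (1 + τ') = J := by
      rw [hτ']
      field_simp
      ring
    have h3 : 1 + τ' < 2 ^ t * ((J + 1) / (k : ℝ) - 1 - τ') := by
      rw [hτ']
      have e1 : (2:ℝ) ^ t * ((J + 1) / (k : ℝ) - 1 - (J / k - 1)) = 2 ^ t / k := by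
        field_simp
        ring
      rw [e1]
      have e2 : (1:ℝ) + (J / k - 1) = J / k := by ring
      rw [e2]
      exact div_lt_div_of_pos_right hJt' hk0
    have h4 := metric1 hk (show 0 ≤ τ' by linarith) h2.ge h3 A hG hR
    filter_upwards [h4] with α hα hpos
    filter_upwards [hα hpos, eventually_ge_atTop (1:ℝ)] with M hM hM1
    obtain ⟨a, ha, h5⟩ := hM
    exact ⟨a, ha, h5.trans_le (Real.rpow_le_rpow_of_exponent_le hM1 (by linarith))⟩

lemma pow_step (Y : ℝ) (hY : 1 ≤ Y) (k : ℕ) :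
    (Y + 1) ^ (k + 1) ≤ Y ^ (k + 1) + 3 ^ (k + 1) * Y ^ k := by
  induction k with
  | zero => simp
  | succ k ih =>
    have h0 : 0 ≤ Y ^ k := by positivity
    have h3 : (1:ℝ) ≤ 3 ^ (k + 1) := one_le_pow₀ (by norm_num)
    have hY1 : Y ^ k ≤ Y ^ (k + 1) := pow_le_pow_right₀ hY (Nat.le_succ k)
    calc (Y + 1) ^ (k + 1 + 1) = (Y + 1) ^ (k + 1) * (Y + 1) := by ring
      _ ≤ (Y ^ (k + 1) + 3 ^ (k + 1) * Y ^ k) * (Y + 1) :=
          mul_le_mul_of_nonneg_right ih (by linarith)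
      _ = Y ^ (k + 1 + 1) + (3 ^ (k + 1) * Y ^ (k + 1) + Y ^ (k + 1) + 3 ^ (k + 1) * Y ^ k) := by
          ring
      _ ≤ Y ^ (k + 1 + 1) + (3 ^ (k + 1) * Y ^ (k + 1) + 3 ^ (k + 1) * Y ^ (k + 1) +
            3 ^ (k + 1) * Y ^ (k + 1)) := by
          have h4 : Y ^ (k + 1) ≤ 3 ^ (k + 1) * Y ^ (k + 1) := by
            have : 0 ≤ Y ^ (k + 1) := by positivity
            nlinarith
          have h5 : 3 ^ (k + 1) * Y ^ k ≤ 3 ^ (k + 1) * Y ^ (k + 1) :=
            mul_le_mul_of_nonneg_left hY1 (by positivity)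
          linarith
      _ = _ := by ring

lemma gap_powers {k : ℕ} (hk : 1 ≤ k) : GapSet k {n | ∃ x : ℕ, n = x ^ k} := by
  refine ⟨3 ^ k, fun y hy => ?_⟩
  have hk0 : (k : ℝ) ≠ 0 := by positivity
  set Y : ℝ := y ^ (1 / (k : ℝ)) with hY
  have hy0 : 0 < y := by linarith
  have hY1 : 1 ≤ Y := Real.one_le_rpow hy (by positivity)
  have hYk : Y ^ k = y := by
    rw [hY, ← Real.rpow_natCast, ← Real.rpow_mul hy0.le]
    rw [one_div, inv_mul_cancel₀ hk0, Real.rpow_one]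
  refine ⟨⌈Y⌉₊ ^ k, ⟨⌈Y⌉₊, rfl⟩, ?_, ?_⟩
  · push_cast
    calc y = Y ^ k := hYk.symm
      _ ≤ _ := pow_le_pow_left₀ (by linarith) (Nat.le_ceil Y) k
  · push_cast
    have h1 : (⌈Y⌉₊ : ℝ) ≤ Y + 1 := (Nat.ceil_lt_add_one (by linarith)).le
    have h2 : (⌈Y⌉₊ : ℝ) ^ k ≤ (Y + 1) ^ k := pow_le_pow_left₀ (by positivity) h1 k
    obtain ⟨m, rfl⟩ : ∃ m, k = m + 1 := ⟨k - 1, by omega⟩
    have h3 := pow_step Y hY1 m
    have h4 : Y ^ m = y ^ (1 - 1 / ((m + 1 : ℕ) : ℝ)) := by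
      rw [hY, ← Real.rpow_natCast, ← Real.rpow_mul hy0.le]
      congr 1
      push_cast
      have : (m : ℝ) + 1 ≠ 0 := by positivity
      field_simp
      ring
    rw [← h4]
    linarith [hYk]

/-- every large integer is an integer part -/
theorem metric_floor {k : ℕ} (hk : 1 ≤ k) :
    ∀ᵐ α : Fin (k + Nat.log 2 k + 2) → ℝ, (∀ i, 0 < α i) → ∀ᶠ n : ℕ in atTop,
      ∃ x : Fin (k + Nat.log 2 k + 2) → ℕ, ⌊∑ i, α i * (x i : ℝ) ^ k⌋ = (n : ℤ) := by
  set t := Nat.log 2 k + 1 with ht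
  have hs : k + Nat.log 2 k + 2 = k + 1 + t := by omega
  rw [hs]
  have hk0 : (0:ℝ) < k := by exact_mod_cast hk
  have hlt : (k : ℝ) < 2 ^ t := by
    have := Nat.lt_pow_succ_log_self (b := 2) (by norm_num) k
    exact_mod_cast this
  -- choose `τ`
  set gap : ℝ := 2 ^ t * (1 / (k : ℝ)) - 1 with hgap
  have hgap0 : 0 < gap := by
    rw [hgap, mul_one_div, sub_pos, one_lt_div hk0]
    exact hlt
  have h2t : (0:ℝ) < 2 ^ t := by positivity
  set τ : ℝ := gap / (2 * (1 + 2 ^ t)) with hτ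
  have hτ0 : 0 < τ := by positivity
  have ht' : 1 + τ < 2 ^ t * ((k + 1) / (k : ℝ) - 1 - τ) := by
    have h1 : τ * (2 * (1 + 2 ^ t)) = gap := by
      rw [hτ]
      field_simp
    have h2 : ((k : ℝ) + 1) / k - 1 = 1 / k := by
      field_simp
      ring
    rw [h2]
    nlinarith
  have hlt' : k < 2 ^ t := by exact_mod_cast hlt
  have hmain := metric hk le_rfl hlt' hτ0.le ht' (fun _ => {n | ∃ x : ℕ, n = x ^ k})
    (fun _ _ => gap_powers hk) (fun _ _ => (gap_powers hk).ratio)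
  filter_upwards [hmain] with α hα hpos
  have h1 := hα hpos
  have hcast : Tendsto (fun n : ℕ => (n : ℝ) + 1 / 2) atTop atTop :=
    tendsto_atTop_add_const_right _ _ tendsto_natCast_atTop_atTop
  have h2 := hcast.eventually h1
  have h3 : Tendsto (fun M : ℝ => M ^ (-τ)) atTop (𝓝 0) := tendsto_rpow_neg_atTop hτ0
  have h4 := hcast.eventually (h3.eventually_lt_const (show (0:ℝ) < 1 / 2 by norm_num))
  filter_upwards [h2, h4] with n hn hn2
  obtain ⟨a, ha, h5⟩ := hn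
  choose x hx using ha
  refine ⟨x, ?_⟩
  have h6 : ∑ i, α i * (x i : ℝ) ^ k = ∑ i, α i * (a i : ℝ) := by
    refine Finset.sum_congr rfl fun i _ => ?_
    rw [hx i]
    push_cast
    rfl
  rw [h6, Int.floor_eq_iff]
  rw [abs_lt] at h5
  push_cast
  constructor <;> linarith [h5.1, h5.2]

/-- at least `k + 1` variables are needed -/
theorem lower {k s : ℕ} (hk : 1 ≤ k) (hs : s ≤ k) (α : Fin s → ℝ) (hα : ∀ i, 2 ≤ α i) :
    ¬ ∀ᶠ n : ℕ in atTop, ∃ x : Fin s → ℕ, ⌊∑ i, α i * (x i : ℝ) ^ k⌋ = (n : ℤ) := by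
  intro h
  obtain ⟨N0, hN0⟩ := eventually_atTop.1 h
  set m := N0 + 2 with hm
  set N := 2 * m ^ k with hN
  choose! x hx using hN0
  have hlt : ∀ n ∈ Finset.Ico N0 N, ∀ i, x n i < m := by
    intro n hn i
    rw [Finset.mem_Ico] at hn
    have h1 := hx n hn.1
    rw [Int.floor_eq_iff] at h1
    have h2 : ∑ i, α i * (x n i : ℝ) ^ k < n + 1 := by
      have := h1.2
      push_cast at this
      exact this
    have h3 : α i * (x n i : ℝ) ^ k ≤ ∑ i, α i * (x n i : ℝ) ^ k :=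
      Finset.single_le_sum (f := fun i => α i * (x n i : ℝ) ^ k)
        (fun j _ => mul_nonneg (by linarith [hα j]) (by positivity)) (Finset.mem_univ i)
    have h4 : 2 * (x n i : ℝ) ^ k ≤ α i * (x n i : ℝ) ^ k :=
      mul_le_mul_of_nonneg_right (hα i) (by positivity)
    have h5 : (2 * (x n i) ^ k : ℕ) < N := by
      have h6 : (n : ℝ) + 1 ≤ N := by exact_mod_cast hn.2
      have h7 : ((2 * (x n i) ^ k : ℕ) : ℝ) < N := by
        push_cast
        linarith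
      exact_mod_cast h7
    rw [hN] at h5
    have h8 : (x n i) ^ k < m ^ k := by omega
    exact lt_of_pow_lt_pow_left₀ k (Nat.zero_le _) h8
  have hcard : (Finset.Ico N0 N).card ≤ (Finset.univ : Finset (Fin s → Fin m)).card := by
    have hm0 : 0 < m := by omega
    refine Finset.card_le_card_of_injOn
      (fun n i => (⟨x n i % m, Nat.mod_lt _ hm0⟩ : Fin m)) (fun n _ => Finset.mem_univ _) ?_
    intro n hn n' hn' heq
    have h9 : x n = x n' := by
      funext i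
      have := congrFun heq i
      simp only [Fin.mk.injEq] at this
      rw [Nat.mod_eq_of_lt (hlt n hn i), Nat.mod_eq_of_lt (hlt n' hn' i)] at this
      exact this
    have h10 := hx n (Finset.mem_Ico.1 hn).1
    have h11 := hx n' (Finset.mem_Ico.1 hn').1
    rw [h9, h11] at h10
    exact_mod_cast h10.symm
  rw [Nat.card_Ico, Finset.card_univ, Fintype.card_fun, Fintype.card_fin, Fintype.card_fin] at hcard
  have hm1 : 1 ≤ m := by omega
  have h12 : m ^ s ≤ m ^ k := Nat.pow_le_pow_right hm1 hs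
  have h13 : m ≤ m ^ k := Nat.le_self_pow (by omega) m
  omega

end U131.MW
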